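import Pool.Agent.H37.DEN.Targets

/-! (DG1) comparison of degrees, the independent case. -/

set_option autoImplicit false

namespace Pool.Agent.H81.DEN

open MvPolynomial Filter Topology
open Pool.Agent.H18.HIT Pool.Agent.H8.TD Pool.Agent.H37.DEN

theorem it_succ {k : Type} [Field k] (T : Tup 3 k) (n : ℕ) (q : Po 3 k) :
    aeval (it T (n + 1)) q = aeval (it T n) (aeval T q) := by
  have h1 : it T (n + 1) = fun i => aeval (it T n) (T i) := by
    unfold it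
    rw [Function.iterate_succ_apply']
    rfl
  rw [h1]
  exact (comp_aeval_apply (f := T) (aeval (it T n)) q).symm

/-- orders of the iterates -/
theorem ord_it (hORD : T_ORD) {k : Type} [Field k] {T : Tup 3 k} {e m : ℕ} (C : Cv T e m)
    (he : 1 ≤ e) (i : Fin m) (n : ℕ) : ∀ q : Po 3 k,
    (C.ch i q = 0 ↔ C.ch i (aeval (it T n) q) = 0) ∧
      (C.ch i (aeval (it T n) q)).order = (e : ℤ) ^ n * (C.ch i q).order := by
  induction n with
  | zero =>
    intro q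
    have h1 : aeval (it T 0) q = q := by
      change aeval (fun i => X i) q = q
      rw [aeval_X_left_apply]
    rw [h1]
    simp
  | succ n ih =>
    intro q
    obtain ⟨h1, h2⟩ := ih (aeval T q)
    obtain ⟨h3, h4, -⟩ := hORD k e _ _ he (C.pow i q)
    rw [it_succ, h3, h1, h2, h4]
    refine ⟨Iff.rfl, ?_⟩
    ring

theorem numN (e C₀ : ℕ) (c : ℝ) (he : 2 ≤ e) (hc : 0 < c) : ∃ N : ℕ, ∀ n ≥ N,
    6 * (C₀ : ℝ) * (3 / 2 * (e : ℝ)) ^ n ≤ (c * (e : ℝ) ^ n / 2) ^ 2 ∧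
      1 < c * (e : ℝ) ^ n / 2 := by
  have heR : (2 : ℝ) ≤ e := by exact_mod_cast he
  have h1 : Tendsto (fun n : ℕ => 6 * (C₀ : ℝ) * (3 / 4 : ℝ) ^ n) atTop (𝓝 (6 * (C₀ : ℝ) * 0)) :=
    (tendsto_pow_atTop_nhds_zero_of_lt_one (by norm_num) (by norm_num)).const_mul _
  rw [mul_zero] at h1
  have h2 : ∀ᶠ n : ℕ in atTop, 6 * (C₀ : ℝ) * (3 / 4 : ℝ) ^ n < c ^ 2 / 4 :=
    (tendsto_order.1 h1).2 _ (by positivity)
  have h3 : Tendsto (fun n : ℕ => c * (e : ℝ) ^ n / 2) atTop atTop :=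
    ((tendsto_pow_atTop_atTop_of_one_lt (by linarith)).const_mul_atTop hc).atTop_div_const
      (by norm_num)
  have h4 := h3.eventually_gt_atTop 1
  obtain ⟨N, hN⟩ := eventually_atTop.1 (h2.and h4)
  refine ⟨N, fun n hn => ⟨?_, (hN n hn).2⟩⟩
  have h5 := (hN n hn).1
  have h6 : (3 / 2 * (e : ℝ)) ^ n ≤ (3 / 4 : ℝ) ^ n * ((e : ℝ) ^ n) ^ 2 := by
    rw [← pow_mul, mul_comm n 2, pow_mul, ← mul_pow]
    refine pow_le_pow_left₀ (by positivity) ?_ n
    nlinarith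
  calc 6 * (C₀ : ℝ) * (3 / 2 * (e : ℝ)) ^ n
      ≤ 6 * (C₀ : ℝ) * ((3 / 4 : ℝ) ^ n * ((e : ℝ) ^ n) ^ 2) :=
        mul_le_mul_of_nonneg_left h6 (by positivity)
    _ = (6 * (C₀ : ℝ) * (3 / 4 : ℝ) ^ n) * ((e : ℝ) ^ n) ^ 2 := by ring
    _ ≤ c ^ 2 / 4 * ((e : ℝ) ^ n) ^ 2 := mul_le_mul_of_nonneg_right h5.le (by positivity)
    _ = (c * (e : ℝ) ^ n / 2) ^ 2 := by ring

theorem pf_DG1 (hITR : T_ITR) (hBEZ : T_BEZ) (hAUX : T_AUX) (hORD : T_ORD)
    (hKON : T_KON) (hPOL : T_POL) (hGNC : T_GNC) : T_DG1 := by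
  intro k _ _ _ T τ e m S U C hF hG P Q c hPQ hc hpol
  have hfld := hF.fld
  have he2 : 2 ≤ e := hfld.two
  have he1 : 1 ≤ e := by omega
  have heR : (2 : ℝ) ≤ e := by exact_mod_cast he2
  obtain ⟨I1, I2, I3, I4, I5⟩ := hITR k T τ hfld.map
  obtain ⟨N₁, hN₁⟩ := hG (3 / 2 * (e : ℝ)) (by linarith)
  obtain ⟨N₂, hN₂⟩ := numN e (P.totalDegree * Q.totalDegree) c he2 hc
  refine ⟨max N₁ N₂, fun n hn => ?_⟩
  have hn1 : N₁ ≤ n := (le_max_left _ _).trans hn
  have hn2 : N₂ ≤ n := (le_max_right _ _).trans hn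
  obtain ⟨g1, g2⟩ := hN₂ n hn2
  by_contra hcon
  push Not at hcon
  set M : ℕ := ⌊(3 / 2 * (e : ℝ)) ^ n⌋₊ with hM
  have hdg : ∀ s s' s'' : Fin 3 → k, dg k {lc s (xx k), lc s' (ph τ n), lc s'' (ph τ n)} ≤ M :=
    fun s s' s'' => Nat.le_floor (hN₁ n hn1 s s' s'').le
  have hbez := hBEZ k τ P Q n M hdg
  set D : ℕ := P.totalDegree * Q.totalDegree * M with hD
  have hbez' : ∀ s : Fin 3 → k, dg k {lc s (xx k), ι (aeval (it T n) P),
      ι (aeval (it T n) Q)} ≤ D := by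
    intro s
    rw [← I1 n P, ← I1 n Q]
    exact hbez s
  set α : ℕ := Nat.sqrt (6 * D) + 1 with hα
  have hα1 : 6 * D < α ^ 2 := by
    rw [hα, sq]
    exact Nat.lt_succ_sqrt (6 * D)
  have hα2 : (α : ℝ) < c * (e : ℝ) ^ n := by
    have h1 : ((Nat.sqrt (6 * D) : ℕ) : ℝ) ≤ c * (e : ℝ) ^ n / 2 := by
      refine le_of_sq_le_sq ?_ (by positivity)
      have h2 : ((Nat.sqrt (6 * D) : ℕ) : ℝ) ^ 2 ≤ ((6 * D : ℕ) : ℝ) := by
        exact_mod_cast Nat.sqrt_le' (6 * D)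
      refine h2.trans (le_trans ?_ g1)
      have h3 : (M : ℝ) ≤ (3 / 2 * (e : ℝ)) ^ n := Nat.floor_le (by positivity)
      rw [hD]
      push_cast
      have h4 : (0 : ℝ) ≤ 6 * ((P.totalDegree : ℝ) * Q.totalDegree) := by positivity
      calc 6 * ((P.totalDegree : ℝ) * (Q.totalDegree : ℝ) * (M : ℝ))
          = 6 * ((P.totalDegree : ℝ) * Q.totalDegree) * M := by ring
        _ ≤ 6 * ((P.totalDegree : ℝ) * Q.totalDegree) * (3 / 2 * (e : ℝ)) ^ n :=
          mul_le_mul_of_nonneg_left h3 h4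
    rw [hα]
    push_cast
    linarith
  -- the iterates are independent
  have hinj : Function.Injective (aeval (it T n) : Po 3 k →ₐ[k] Po 3 k) := by
    rw [injective_iff_map_eq_zero]
    intro q hq
    by_contra h
    exact I4 n q h hq
  have hind : AlgebraicIndependent k ![aeval (it T n) P, aeval (it T n) Q] := by
    have h1 := hPQ.map' (f := (aeval (it T n) : Po 3 k →ₐ[k] Po 3 k)) hinj
    have h2 : (aeval (it T n) : Po 3 k →ₐ[k] Po 3 k) ∘ ![P, Q] =
        ![aeval (it T n) P, aeval (it T n) Q] := by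
      funext i
      fin_cases i <;> rfl
    rw [← h2]
    exact h1
  obtain ⟨J, hJ1, hJ⟩ := hAUX k (aeval (it T n) P) (aeval (it T n) Q) D α hind hbez' hcon hα1
  obtain ⟨G1, -⟩ := hGNC k T τ e m S U C hF
  obtain ⟨E₀, hE₀⟩ := G1 Q
  obtain ⟨cc, R, G, hcc, hR, hG0, hRG⟩ := hJ E₀
  have hQc : ∀ a : k, Q - MvPolynomial.C a ≠ 0 := by
    intro a h
    have h1 : Transcendental k Q := by
      have := hPQ.transcendental 1
      exact this
    rw [sub_eq_zero] at h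
    apply h1
    rw [h]
    exact isAlgebraic_algebraMap a
  have hK := (hKON k T τ e m S U C hF).2
  have ev1 : ∀ᶠ s in (U : Filter S), ∀ j : Fin J, ∀ i,
      ((C s).ch i (Q - MvPolynomial.C (cc j))).order = -(pl ((C s).ch i Q) : ℤ) :=
    eventually_all.2 fun j => hE₀ (cc j) (hcc j)
  have ev2 : ∀ᶠ s in (U : Filter S), ∀ j : Fin J, ∀ i,
      (C s).ch i (Q - MvPolynomial.C (cc j)) ≠ 0 :=
    eventually_all.2 fun j => hF.gen _ (hQc (cc j))
  obtain ⟨s, ⟨⟨⟨⟨s1, s2⟩, s3⟩, s4⟩, s5⟩⟩ :=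
    ((((ev1.and ev2).and (hF.gen G hG0)).and hK).and hpol).exists
  obtain ⟨p1, p2, p3, -, -⟩ := hPOL k T e m (C s) he1
  have hsum := (C s).sum G s3
  have hone : ∀ i : Fin m, (J : ℝ) * (e : ℝ) ^ n * (pl ((C s).ch i Q) : ℝ) -
      α * J * (dl ((C s).ch i) : ℝ) - J * (e : ℝ) ^ n * (pl ((C s).ch i P) : ℝ) ≤
        (((C s).ch i G).order : ℝ) := by
    intro i
    have h1 : ((C s).ch i R).order = ((C s).ch i G).order -
        J * ((e : ℤ) ^ n * (pl ((C s).ch i Q) : ℤ)) := by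
      rw [hRG, map_mul, map_prod]
      have h2 : ∀ j : Fin J, (C s).ch i (aeval (it T n) Q - MvPolynomial.C (cc j)) =
          (C s).ch i (aeval (it T n) (Q - MvPolynomial.C (cc j))) := by
        intro j
        have h := map_sub (aeval (it T n) : Po 3 k →ₐ[k] Po 3 k) Q (MvPolynomial.C (cc j))
        rw [h, MvPolynomial.algHom_C, MvPolynomial.algebraMap_eq]
      have h3 : ∀ (A : Finset (Fin J)), (∏ j ∈ A, (C s).ch i
          (aeval (it T n) Q - MvPolynomial.C (cc j))) ≠ 0 ∧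
          (∏ j ∈ A, (C s).ch i (aeval (it T n) Q - MvPolynomial.C (cc j))).order =
            -((A.card : ℤ) * ((e : ℤ) ^ n * (pl ((C s).ch i Q) : ℤ))) := by
        classical
        intro A
        induction A using Finset.induction_on with
        | empty => simp
        | insert j A hj ih =>
          obtain ⟨i1, i2⟩ := ih
          obtain ⟨o1, o2⟩ := ord_it hORD (C s) he1 i n (Q - MvPolynomial.C (cc j))
          have h4 : (C s).ch i (aeval (it T n) Q - MvPolynomial.C (cc j)) ≠ 0 := by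
            rw [h2 j]
            exact fun h => s2 j i (o1.2 h)
          rw [Finset.prod_insert hj]
          refine ⟨mul_ne_zero h4 i1, ?_⟩
          rw [HahnSeries.order_mul h4 i1, i2, h2 j, o2, s1 j i, Finset.card_insert_of_notMem hj]
          push_cast
          ring
      obtain ⟨h4, h5⟩ := h3 Finset.univ
      rw [HahnSeries.order_mul (s3 i) h4, h5, Finset.card_univ, Fintype.card_fin]
      ring
    have h2 := p3 i (aeval (it T n) P) R J (α * J) hR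
    rw [p1 i n P] at h2
    have h3 : -((C s).ch i R).order ≤ (pl ((C s).ch i R) : ℤ) := Int.self_le_toNat _
    have h4 : (pl ((C s).ch i R) : ℤ) ≤ (α : ℤ) * J * (dl ((C s).ch i) : ℤ) +
        J * ((e : ℤ) ^ n * (pl ((C s).ch i P) : ℤ)) := by exact_mod_cast h2
    have h5 : (J : ℤ) * (e : ℤ) ^ n * (pl ((C s).ch i Q) : ℤ) -
        α * J * (dl ((C s).ch i) : ℤ) - J * (e : ℤ) ^ n * (pl ((C s).ch i P) : ℤ) ≤
          ((C s).ch i G).order := by
      rw [h1] at h3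
      linarith
    exact_mod_cast h5
  have htot := Finset.sum_le_sum fun (i : Fin m) (_ : i ∈ Finset.univ) => hone i
  have hpolR : ∀ q : Po 3 k, (((C s).pol q : ℕ) : ℝ) = ∑ i, (pl ((C s).ch i q) : ℝ) := by
    intro q
    unfold Cv.pol
    push_cast
    rfl
  have hdltR : (((C s).dlt : ℕ) : ℝ) = ∑ i, (dl ((C s).ch i) : ℝ) := by
    unfold Cv.dlt
    push_cast
    rfl
  rw [Finset.sum_sub_distrib, Finset.sum_sub_distrib, ← Finset.mul_sum, ← Finset.mul_sum,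
    ← Finset.mul_sum, ← hpolR, ← hpolR, ← hdltR] at htot
  have hsumR : ∑ i, (((C s).ch i G).order : ℝ) ≤ 0 := by exact_mod_cast hsum
  have hJR : (1 : ℝ) ≤ J := by exact_mod_cast hJ1
  have hdl1 : (1 : ℝ) ≤ (C s).dlt := by exact_mod_cast s4
  have hen : 0 < (e : ℝ) ^ n := by positivity
  have h6 : (J : ℝ) * (e : ℝ) ^ n * ((C s).pol P + c * (C s).dlt) ≤
      J * (e : ℝ) ^ n * (C s).pol Q := mul_le_mul_of_nonneg_left s5 (by positivity)
  have h7 : 0 < (J : ℝ) * (C s).dlt * (c * (e : ℝ) ^ n - α) := by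
    have : 0 < c * (e : ℝ) ^ n - α := by linarith
    positivity
  nlinarith

end Pool.Agent.H81.DEN
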