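import Pool.Agent.H37.DEN.Targets

/-! (DIN) the first exponent which is not divisible by `μ` is far away. -/

set_option autoImplicit false

namespace Pool.Agent.H81.DEN

open MvPolynomial Filter
open Pool.Agent.H18.HIT Pool.Agent.H8.TD Pool.Agent.H37.DEN

/-- the substitution `φ ↦ φ ^ r` -/
noncomputable def Phi (k : Type) [Field k] (r : ℤ) (hr : 0 < r) :
    LaurentSeries k →+* LaurentSeries k :=
  HahnSeries.embDomainRingHom (AddMonoidHom.mulLeft r)
    (fun _ _ h => mul_left_cancel₀ hr.ne' h)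
    (fun _ _ => mul_le_mul_iff_right₀ hr)

theorem Phi_coeff (k : Type) [Field k] (r : ℤ) (hr : 0 < r) (x : LaurentSeries k) (n : ℤ) :
    (Phi k r hr x).coeff (r * n) = x.coeff n :=
  HahnSeries.embDomain_coeff (f := ⟨⟨AddMonoidHom.mulLeft r,
    fun a b h => mul_left_cancel₀ hr.ne' h⟩, by
      intro a b
      exact mul_le_mul_iff_right₀ hr⟩) (x := x) (a := n)

theorem Phi_coeff' (k : Type) [Field k] (r : ℤ) (hr : 0 < r) (x : LaurentSeries k) (n : ℤ)
    (hn : ¬ r ∣ n) : (Phi k r hr x).coeff n = 0 :=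
  HahnSeries.embDomain_of_notMem_range (f := ⟨⟨AddMonoidHom.mulLeft r,
    fun a b h => mul_left_cancel₀ hr.ne' h⟩, by
      intro a b
      exact mul_le_mul_iff_right₀ hr⟩) (x := x) (by
        rintro ⟨m, hm⟩
        exact hn ⟨m, hm.symm⟩)

theorem isPow_iff (k : Type) [Field k] (e : ℕ) (he : (0 : ℤ) < e) (x y : LaurentSeries k) :
    IsPow e x y ↔ y = Phi k e he x := by
  constructor
  · intro h
    ext n
    by_cases hn : (e : ℤ) ∣ n
    · obtain ⟨m, rfl⟩ := hn
      rw [Phi_coeff, (h m).1]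
    · rw [Phi_coeff' k e he x n hn, (h n).2 hn]
  · rintro rfl n
    exact ⟨Phi_coeff k e he x n, Phi_coeff' k e he x n⟩

section PD

variable {k : Type} [Field k]

/-- nonzero, the order is divisible by `μ` and the expansion is good up to `B` -/
def Pd (μ : ℕ) (B : ℤ) (y : LaurentSeries k) : Prop :=
  y ≠ 0 ∧ (μ : ℤ) ∣ y.order ∧ Df μ y (y.order + B)

theorem ord_inv {y : LaurentSeries k} (hy : y ≠ 0) : (y⁻¹).order = -y.order := by
  have h := HahnSeries.order_mul hy (inv_ne_zero hy)
  rw [mul_inv_cancel₀ hy, HahnSeries.order_one] at h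
  omega

theorem Pd.mul (hDFM : T_DFM) {μ : ℕ} (hμ : 1 ≤ μ) {B : ℤ} (hB : 0 ≤ B)
    {x y : LaurentSeries k} (hx : Pd μ B x) (hy : Pd μ B y) : Pd μ B (x * y) := by
  obtain ⟨x1, x2, x3⟩ := hx
  obtain ⟨y1, y2, y3⟩ := hy
  refine ⟨mul_ne_zero x1 y1, ?_, ?_⟩
  · rw [HahnSeries.order_mul x1 y1]
    exact dvd_add x2 y2
  · rw [HahnSeries.order_mul x1 y1]
    exact (hDFM k μ x y B hμ hB x1 y1 x2 y2 x3 y3).1

theorem Pd.inv (hDFM : T_DFM) {μ : ℕ} (hμ : 1 ≤ μ) {B : ℤ} (hB : 0 ≤ B)
    {x : LaurentSeries k} (hx : Pd μ B x) : Pd μ B x⁻¹ := by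
  obtain ⟨x1, x2, x3⟩ := hx
  refine ⟨inv_ne_zero x1, ?_, ?_⟩
  · rw [ord_inv x1]
    exact (dvd_neg).2 x2
  · rw [ord_inv x1]
    exact (hDFM k μ x x B hμ hB x1 x1 x2 x2 x3 x3).2

theorem Pd.one {μ : ℕ} {B : ℤ} : Pd μ B (1 : LaurentSeries k) := by
  refine ⟨one_ne_zero, ?_, ?_⟩
  · rw [HahnSeries.order_one]
    exact dvd_zero _
  · intro n _ hn
    rw [HahnSeries.coeff_one, if_neg]
    rintro rfl
    exact hn (dvd_zero _)

theorem Pd.pow (hDFM : T_DFM) {μ : ℕ} (hμ : 1 ≤ μ) {B : ℤ} (hB : 0 ≤ B)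
    {x : LaurentSeries k} (hx : Pd μ B x) (n : ℕ) : Pd μ B (x ^ n) := by
  induction n with
  | zero =>
    rw [pow_zero]
    exact Pd.one
  | succ n ih =>
    rw [pow_succ]
    exact ih.mul hDFM hμ hB hx

theorem Pd.zpow (hDFM : T_DFM) {μ : ℕ} (hμ : 1 ≤ μ) {B : ℤ} (hB : 0 ≤ B)
    {x : LaurentSeries k} (hx : Pd μ B x) (n : ℤ) : Pd μ B (x ^ n) := by
  rcases Int.eq_nat_or_neg n with ⟨m, rfl | rfl⟩
  · rw [zpow_natCast]
    exact hx.pow hDFM hμ hB m
  · rw [zpow_neg, zpow_natCast]
    exact (hx.pow hDFM hμ hB m).inv hDFM hμ hB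

/-- the expansion of a rational function at a place -/
noncomputable def xs {T : Tup 3 k} {e m : ℕ} (C : Cv T e m) (i : Fin m) (h : K3 k) :
    LaurentSeries k := C.ch i (nu h) / C.ch i (de h)

end PD

section fam

variable {k : Type} [Field k] {T : Tup 3 k} {τ : K3 k →ₐ[k] K3 k} {e m : ℕ} {S : Type}
  {U : Ultrafilter S} {C : S → Cv T e m}

theorem ι_ne {q : Po 3 k} (hq : q ≠ 0) : ι q ≠ 0 := by
  unfold ι
  rw [Ne, FaithfulSMul.algebraMap_eq_zero_iff]
  exact hq

theorem ι_inj {p q : Po 3 k} (h : ι p = ι q) : p = q :=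
  FaithfulSMul.algebraMap_injective (Po 3 k) (K3 k) h

theorem xs_frac (hRDG : T_RDG) (hF : Fam T τ e m U C) (i : Fin m) (P Q : Po 3 k) (hQ : Q ≠ 0) :
    ∀ᶠ s in (U : Filter S), xs (C s) i (ι P / ι Q) = (C s).ch i P / (C s).ch i Q := by
  obtain ⟨hde, hh, -⟩ := (hRDG k).1 (ι P / ι Q)
  have h0 : P * de (ι P / ι Q) = nu (ι P / ι Q) * Q := by
    have h1 := hh
    rw [div_eq_div_iff (ι_ne hQ) (ι_ne hde)] at h1
    refine ι_inj ?_
    have h2 : ∀ a b : Po 3 k, ι (a * b) = ι a * ι b := fun a b => map_mul _ _ _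
    rw [h2, h2]
    exact h1
  filter_upwards [hF.gen Q hQ, hF.gen _ hde] with s h1 h2
  unfold xs
  rw [div_eq_div_iff (h2 i) (h1 i), ← map_mul, ← map_mul, h0]

theorem xs_mul (hRDG : T_RDG) (hF : Fam T τ e m U C) (i : Fin m) (g h : K3 k) :
    ∀ᶠ s in (U : Filter S), xs (C s) i (g * h) = xs (C s) i g * xs (C s) i h := by
  obtain ⟨d1, e1, -⟩ := (hRDG k).1 g
  obtain ⟨d2, e2, -⟩ := (hRDG k).1 h
  have h0 : g * h = ι (nu g * nu h) / ι (de g * de h) := by
    have h2 : ∀ a b : Po 3 k, ι (a * b) = ι a * ι b := fun a b => map_mul _ _ _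
    rw [h2, h2]
    conv_lhs => rw [e1, e2]
    rw [div_mul_div_comm]
  filter_upwards [xs_frac hRDG hF i (nu g * nu h) (de g * de h) (mul_ne_zero d1 d2)] with s h1
  rw [h0, h1, map_mul, map_mul]
  unfold xs
  rw [div_mul_div_comm]

theorem xs_add (hRDG : T_RDG) (hF : Fam T τ e m U C) (i : Fin m) (g h : K3 k) :
    ∀ᶠ s in (U : Filter S), xs (C s) i (g + h) = xs (C s) i g + xs (C s) i h := by
  obtain ⟨d1, e1, -⟩ := (hRDG k).1 g
  obtain ⟨d2, e2, -⟩ := (hRDG k).1 h
  have h0 : g + h = ι (nu g * de h + de g * nu h) / ι (de g * de h) := by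
    have h2 : ∀ a b : Po 3 k, ι (a * b) = ι a * ι b := fun a b => map_mul _ _ _
    have h3 : ∀ a b : Po 3 k, ι (a + b) = ι a + ι b := fun a b => map_add _ _ _
    rw [h3, h2, h2, h2]
    conv_lhs => rw [e1, e2]
    rw [div_add_div _ _ (ι_ne d1) (ι_ne d2)]
  filter_upwards [xs_frac hRDG hF i (nu g * de h + de g * nu h) (de g * de h)
    (mul_ne_zero d1 d2), hF.gen _ d1, hF.gen _ d2] with s h1 h2 h3
  rw [h0, h1, map_add, map_mul, map_mul, map_mul]
  unfold xs
  rw [div_add_div _ _ (h2 i) (h3 i)]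

theorem xs_pow (hRDG : T_RDG) (hF : Fam T τ e m U C) (i : Fin m) (g : K3 k) (n : ℕ) :
    ∀ᶠ s in (U : Filter S), xs (C s) i (g ^ n) = xs (C s) i g ^ n := by
  induction n with
  | zero =>
    have h0 : (g ^ 0 : K3 k) = ι 1 / ι 1 := by
      rw [pow_zero, div_self (ι_ne one_ne_zero)]
    filter_upwards [xs_frac hRDG hF i 1 1 one_ne_zero] with s h1
    rw [h0, h1, map_one, div_one, pow_zero]
  | succ n ih =>
    filter_upwards [ih, xs_mul hRDG hF i (g ^ n) g] with s h1 h2
    rw [pow_succ, h2, h1, pow_succ]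

theorem xs_ne (hRDG : T_RDG) (hF : Fam T τ e m U C) (i : Fin m) (h : K3 k) (hh : h ≠ 0) :
    ∀ᶠ s in (U : Filter S), xs (C s) i h ≠ 0 ∧ (xs (C s) i h).order = vs ((C s).ch i) h := by
  obtain ⟨d1, -, d3⟩ := (hRDG k).1 h
  filter_upwards [hF.gen _ d1, hF.gen _ (d3 hh)] with s h1 h2
  unfold xs
  refine ⟨div_ne_zero (h2 i) (h1 i), ?_⟩
  rw [div_eq_mul_inv, HahnSeries.order_mul (h2 i) (inv_ne_zero (h1 i)), ord_inv (h1 i)]
  rfl

theorem xs_zpow (hRDG : T_RDG) (hF : Fam T τ e m U C) (i : Fin m) (g : K3 k) (hg : g ≠ 0)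
    (n : ℤ) : ∀ᶠ s in (U : Filter S), xs (C s) i (g ^ n) = xs (C s) i g ^ n := by
  rcases Int.eq_nat_or_neg n with ⟨a, rfl | rfl⟩
  · filter_upwards [xs_pow hRDG hF i g a] with s h1
    rw [zpow_natCast, zpow_natCast, h1]
  · filter_upwards [xs_pow hRDG hF i g a, xs_mul hRDG hF i (g ^ (-(a : ℤ))) (g ^ a),
      xs_pow hRDG hF i g 0, xs_ne hRDG hF i g hg] with s h1 h2 h3 h4
    have h5 : g ^ (-(a : ℤ)) * g ^ a = g ^ 0 := by
      rw [zpow_neg, zpow_natCast, pow_zero, inv_mul_cancel₀ (pow_ne_zero _ hg)]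
    rw [h5, h3, h1, pow_zero] at h2
    rw [zpow_neg (xs (C s) i g), zpow_natCast]
    exact eq_inv_of_mul_eq_one_left h2.symm

theorem xs_tau (hRDG : T_RDG) (hF : Fam T τ e m U C) (i : Fin m) (h : K3 k) :
    ∀ᶠ s in (U : Filter S), IsPow e (xs (C s) i h) (xs (C s) i (τ h)) := by
  obtain ⟨d1, d2, -⟩ := (hRDG k).1 h
  have he : (0 : ℤ) < e := by
    have := hF.fld.two
    omega
  have hne : aeval T (de h) ≠ 0 := by
    intro h0
    have h1 := hF.fld.map (de h)
    rw [h0] at h1
    have h2 : ι (0 : Po 3 k) = 0 := map_zero _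
    rw [h2] at h1
    exact ι_ne d1 ((map_eq_zero τ).1 h1)
  have h0 : τ h = ι (aeval T (nu h)) / ι (aeval T (de h)) := by
    conv_lhs => rw [d2]
    rw [map_div₀, hF.fld.map, hF.fld.map]
  filter_upwards [xs_frac hRDG hF i (aeval T (nu h)) (aeval T (de h)) hne] with s h1
  rw [h0, h1, isPow_iff k e he]
  have h2 := (isPow_iff k e he _ _).1 ((C s).pow i (nu h))
  have h3 := (isPow_iff k e he _ _).1 ((C s).pow i (de h))
  unfold xs
  rw [map_div₀, h2, h3]

theorem xs_const (hRDG : T_RDG) (hF : Fam T τ e m U C) (i : Fin m) (c : k) :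
    ∀ᶠ s in (U : Filter S), xs (C s) i (algebraMap k (K3 k) c) = HahnSeries.C c := by
  have h0 : algebraMap k (K3 k) c = ι (MvPolynomial.C c) / ι 1 := by
    have h1 : ι (1 : Po 3 k) = 1 := map_one _
    rw [h1, div_one]
    exact IsScalarTower.algebraMap_apply k (Po 3 k) (K3 k) c
  filter_upwards [xs_frac hRDG hF i (MvPolynomial.C c) 1 one_ne_zero] with s h1
  rw [h0, h1, map_one, div_one, MvPolynomial.algHom_C, LaurentSeries.algebraMap_apply]

end fam

theorem pf_DIN (hRDG : T_RDG) (hORD : T_ORD) (_hVAL : Pool.Agent.H37.DEN.T_VAL) (hRES : T_RES)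
    (hDFM : T_DFM) (hDFE : T_DFE) (hDFP : T_DFP) : T_DIN := by
  intro k _ _ T τ e m S U C hF i μ u hu hμ hvu hval
  have he2 : 2 ≤ e := hF.fld.two
  have he1 : 1 ≤ e := by omega
  -- the claim in terms of the expansions
  suffices hmain : ∀ (N : ℕ) (h : K3 k), h ≠ 0 → ∀ᶠ s in (U : Filter S),
      Pd (μ s) (N * μ s) (xs (C s) i h) by
    intro N h hh
    filter_upwards [hmain N h hh, xs_ne hRDG hF i h hh] with s h1 h2
    rw [← h2.2]
    exact h1.2.2
  have hdiv : ∀ h : K3 k, h ≠ 0 → ∃ a : ℤ, ∀ᶠ s in (U : Filter S), xs (C s) i h ≠ 0 ∧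
      (xs (C s) i h).order = a * μ s := by
    intro h hh
    obtain ⟨a, ha⟩ := hval h hh
    refine ⟨a, ?_⟩
    filter_upwards [ha, xs_ne hRDG hF i h hh] with s h1 h2
    exact ⟨h2.1, by rw [h2.2, h1]⟩
  intro N
  induction N with
  | zero =>
    intro h hh
    obtain ⟨a, ha⟩ := hdiv h hh
    filter_upwards [ha] with s h1
    refine ⟨h1.1, ⟨a, by rw [h1.2]; ring⟩, ?_⟩
    intro n hn _
    refine HahnSeries.coeff_eq_zero_of_lt_order ?_
    push_cast at hn
    linarith
  | succ N ih =>
    -- (i) functions of value zero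
    have step1 : ∀ h : K3 k, h ≠ 0 → (∀ᶠ s in (U : Filter S), vs ((C s).ch i) h = 0) →
        ∀ᶠ s in (U : Filter S), Pd (μ s) ((N + 1 : ℕ) * μ s) (xs (C s) i h) := by
      intro h hh hv0
      by_cases hτ : τ h = h
      · obtain ⟨c, hc⟩ := hF.fld.inv h hτ
        filter_upwards [xs_const hRDG hF i c, xs_ne hRDG hF i h hh, hv0] with s h1 h2 h3
        refine ⟨h2.1, ?_, ?_⟩
        · rw [h2.2, h3]
          exact dvd_zero _
        · intro n _ hn
          rw [hc, h1, HahnSeries.C_apply, HahnSeries.coeff_single_of_ne]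
          rintro rfl
          exact hn (dvd_zero _)
      · have hV : Vg U (fun s => (C s).ch i) h = 0 := by
          have h1 : ((fun s => vs ((C s).ch i) h : S → ℤ) : Germ (U : Filter S) ℤ) =
              ((fun _ => 0 : S → ℤ) : Germ (U : Filter S) ℤ) := Germ.coe_eq.2 hv0
          exact h1
        have hpos := (hRES k T τ e m S U C hF i h hh hV).resolve_left hτ
        have hpos' : ∀ᶠ s in (U : Filter S), 0 < vs ((C s).ch i) (τ h - h) :=
          Germ.coe_pos.1 hpos
        have hg : τ h - h ≠ 0 := sub_ne_zero.2 hτ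
        obtain ⟨a, ha⟩ := hdiv (τ h - h) hg
        have hadd := xs_add hRDG hF i (τ h - h) h
        filter_upwards [ih (τ h - h) hg, ha, hpos', hadd, xs_tau hRDG hF i h,
          xs_ne hRDG hF i h hh, hv0, hμ, xs_ne hRDG hF i _ hg] with s q1 q2 q3 q4 q5 q6 q7 q8 q9
        rw [sub_add_cancel] at q4
        have hord : (xs (C s) i h).order = 0 := by rw [q6.2, q7]
        have hμ1 : (1 : ℤ) ≤ μ s := by exact_mod_cast q8.1
        have ha1 : 1 ≤ a := by
          rw [← q9.2, q2.2] at q3
          by_contra hcon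
          have h1 : a ≤ 0 := by omega
          nlinarith
        refine ⟨q6.1, by rw [hord]; exact dvd_zero _, ?_⟩
        rw [hord, zero_add]
        have key : ∀ n : ℕ, (n : ℤ) < ((N + 1 : ℕ) : ℤ) * μ s → ¬ (μ s : ℤ) ∣ n →
            (xs (C s) i h).coeff n = 0 := by
          intro n
          induction n using Nat.strong_induction_on with
          | _ n ihn =>
            intro hn hdn
            have hn0 : n ≠ 0 := by
              rintro rfl
              exact hdn (by simp)
            have h1 : (xs (C s) i (τ h)).coeff (n : ℤ) = 0 := by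
              by_cases hen : (e : ℤ) ∣ n
              · obtain ⟨n', hn'⟩ := hen
                have hn'0 : 0 < n' := by
                  by_contra hcon
                  have h2 : (e : ℤ) * n' ≤ 0 :=
                    mul_nonpos_of_nonneg_of_nonpos (Nat.cast_nonneg _) (by omega)
                  omega
                obtain ⟨n'', rfl⟩ := Int.eq_ofNat_of_zero_le hn'0.le
                have heZ : (2 : ℤ) ≤ e := by exact_mod_cast he2
                have hlt : (n'' : ℤ) < n := by
                  rw [hn']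
                  nlinarith
                rw [hn', (q5 n'').1]
                refine ihn n'' (by exact_mod_cast hlt) (hlt.trans hn) ?_
                intro h3
                apply hdn
                rw [hn']
                exact h3.mul_left _
              · exact (q5 n).2 hen
            have h2 : (xs (C s) i (τ h - h)).coeff (n : ℤ) = 0 := by
              refine q1.2.2 n ?_ hdn
              rw [q2.2]
              push_cast at hn
              nlinarith
            have h3 := congrArg (fun y => HahnSeries.coeff y (n : ℤ)) q4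
            simp only [HahnSeries.coeff_add] at h3
            rw [h1, h2, zero_add] at h3
            exact h3.symm
        intro n hn hdn
        rcases lt_or_ge n 0 with h1 | h1
        · refine HahnSeries.coeff_eq_zero_of_lt_order ?_
          rw [hord]
          exact h1
        · obtain ⟨n', rfl⟩ := Int.eq_ofNat_of_zero_le h1
          exact key n' hn hdn
    -- (ii) the function u
    have hτu : τ u ≠ 0 := (map_ne_zero τ).2 hu
    have hue : u ^ e ≠ 0 := pow_ne_zero _ hu
    have hw : τ u / u ^ e ≠ 0 := div_ne_zero hτu hue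
    have hwmul : ∀ᶠ s in (U : Filter S), xs (C s) i (τ u / u ^ e) * xs (C s) i u ^ e =
        xs (C s) i (τ u) := by
      filter_upwards [xs_mul hRDG hF i (τ u / u ^ e) (u ^ e), xs_pow hRDG hF i u e] with s h1 h2
      rw [div_mul_cancel₀ _ hue, h2] at h1
      exact h1.symm
    have hw0 : ∀ᶠ s in (U : Filter S), vs ((C s).ch i) (τ u / u ^ e) = 0 := by
      filter_upwards [hwmul, xs_tau hRDG hF i u, xs_ne hRDG hF i u hu,
        xs_ne hRDG hF i _ hw] with s h1 h2 h3 h4
      have h5 := (hORD k e _ _ he1 h2).2.1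
      rw [← h1, HahnSeries.order_mul h4.1 (pow_ne_zero _ h3.1), HahnSeries.order_pow,
        nsmul_eq_mul] at h5
      rw [← h4.2]
      linarith
    have step2 : ∀ᶠ s in (U : Filter S), Pd (μ s) ((N + 1 : ℕ) * μ s) (xs (C s) i u) := by
      filter_upwards [step1 _ hw hw0, hwmul, xs_tau hRDG hF i u, xs_ne hRDG hF i u hu, hvu, hμ,
        hw0, xs_ne hRDG hF i _ hw] with s q1 q2 q3 q4 q5 q6 q7 q8
      have hμ1 : (1 : ℤ) ≤ μ s := by exact_mod_cast q6.1
      have hord : (xs (C s) i u).order = μ s := by rw [q4.2, q5]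
      have hordw : (xs (C s) i (τ u / u ^ e)).order = 0 := by rw [q8.2, q7]
      obtain ⟨o1, o2, -⟩ := hORD k e _ _ he1 q3
      have hτne : xs (C s) i (τ u) ≠ 0 := fun h => q4.1 (o1.2 h)
      have key : ∀ D : ℕ, (D : ℤ) ≤ ((N + 1 : ℕ) : ℤ) * μ s →
          Df (μ s) (xs (C s) i u) ((xs (C s) i u).order + D) := by
        intro D
        induction D with
        | zero =>
          intro _ n hn _
          refine HahnSeries.coeff_eq_zero_of_lt_order ?_
          push_cast at hn
          linarith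
        | succ D ihD =>
          intro hD
          have hD' : (D : ℤ) ≤ ((N + 1 : ℕ) : ℤ) * μ s := by
            push_cast at hD ⊢
            linarith
          have hDf := ihD hD'
          rcases Nat.eq_zero_or_pos D with h0 | h0
          · subst h0
            intro n hn hdn
            refine HahnSeries.coeff_eq_zero_of_lt_order ?_
            push_cast at hn
            rcases lt_or_eq_of_le (Int.lt_add_one_iff.1 (by linarith :
              n < (xs (C s) i u).order + 1)) with h1 | h1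
            · exact h1
            · exfalso
              apply hdn
              rw [h1, hord]
          · have hpow : Df (μ s) (xs (C s) i u ^ e)
                (e * (xs (C s) i u).order + D + 1) := by
              have hB : (0 : ℤ) ≤ (D : ℤ) + 1 := by positivity
              have hτP : Pd (μ s) ((D : ℤ) + 1) (xs (C s) i (τ u)) := by
                refine ⟨hτne, ?_, ?_⟩
                · rw [o2, hord]
                  exact Dvd.intro_left _ rfl
                · have h1 := (hDFP k (μ s) e (xs (C s) i u) (xs (C s) i (τ u))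
                    ((xs (C s) i u).order + D) he1 q6.2 q3).2 hDf
                  intro n hn hdn
                  refine h1 n (lt_of_lt_of_le hn ?_) hdn
                  rw [o2]
                  have heZ : (2 : ℤ) ≤ e := by exact_mod_cast he2
                  have hDZ : (1 : ℤ) ≤ D := by exact_mod_cast h0
                  nlinarith
              have hwP : Pd (μ s) ((D : ℤ) + 1) (xs (C s) i (τ u / u ^ e)) := by
                refine ⟨q1.1, q1.2.1, ?_⟩
                intro n hn hdn
                refine q1.2.2 n (lt_of_lt_of_le hn ?_) hdn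
                push_cast at hD ⊢
                linarith
              have hmulP := hτP.mul hDFM q6.1 hB (hwP.inv hDFM q6.1 hB)
              have heq : xs (C s) i (τ u) * (xs (C s) i (τ u / u ^ e))⁻¹ =
                  xs (C s) i u ^ e := by
                rw [← q2]
                field_simp [q8.1]
              rw [heq] at hmulP
              have h2 := hmulP.2.2
              rw [HahnSeries.order_pow, nsmul_eq_mul] at h2
              intro n hn hdn
              exact h2 n (by linarith) hdn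
            have h3 := hDFE k (μ s) e (xs (C s) i u) D he1 (Nat.cast_nonneg _) q4.1
              (by rw [hord]) hDf hpow
            intro n hn hdn
            refine h3 n ?_ hdn
            push_cast at hn
            linarith
      refine ⟨q4.1, by rw [hord], ?_⟩
      have hcast : (((N + 1) * μ s : ℕ) : ℤ) = ((N + 1 : ℕ) : ℤ) * μ s := by push_cast; ring
      have h1 := key ((N + 1) * μ s) (le_of_eq hcast)
      rw [hcast] at h1
      exact h1
    -- (iii) all functions
    intro h hh
    obtain ⟨a, ha⟩ := hdiv h hh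
    have hua : u ^ a ≠ 0 := zpow_ne_zero _ hu
    have hh' : h / u ^ a ≠ 0 := div_ne_zero hh hua
    have hmul : ∀ᶠ s in (U : Filter S), xs (C s) i h =
        xs (C s) i (h / u ^ a) * xs (C s) i u ^ a := by
      filter_upwards [xs_mul hRDG hF i (h / u ^ a) (u ^ a), xs_zpow hRDG hF i u hu a]
        with s h1 h2
      rw [div_mul_cancel₀ _ hua, h2] at h1
      exact h1
    have hzord : ∀ (y : LaurentSeries k) (n : ℤ), y ≠ 0 → (y ^ n).order = n * y.order := by
      intro y n hy
      rcases Int.eq_nat_or_neg n with ⟨b, rfl | rfl⟩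
      · rw [zpow_natCast, HahnSeries.order_pow, nsmul_eq_mul]
      · rw [zpow_neg, zpow_natCast, ord_inv (pow_ne_zero _ hy), HahnSeries.order_pow,
          nsmul_eq_mul]
        ring
    have hv0 : ∀ᶠ s in (U : Filter S), vs ((C s).ch i) (h / u ^ a) = 0 := by
      filter_upwards [hmul, ha, xs_ne hRDG hF i u hu, hvu, xs_ne hRDG hF i _ hh']
        with s h1 h2 h3 h4 h5
      have h6 := h2.2
      rw [h1, HahnSeries.order_mul h5.1 (zpow_ne_zero _ h3.1), hzord _ _ h3.1, h3.2, h4,
        h5.2] at h6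
      linarith
    filter_upwards [hmul, step1 _ hh' hv0, step2, hμ] with s h1 h2 h3 h4
    have hB : (0 : ℤ) ≤ ((N + 1 : ℕ) : ℤ) * μ s := by positivity
    rw [h1]
    exact h2.mul hDFM h4.1 hB (h3.zpow hDFM h4.1 hB a)

end Pool.Agent.H81.DEN
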