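import Pool.Agent.H37.DEN.Targets

/-! (HTB) the degrees of the coordinates with respect to a basis. -/

set_option autoImplicit false

namespace Pool.Agent.H81.DEN

open MvPolynomial Filter
open Pool.Agent.H18.HIT Pool.Agent.H8.TD Pool.Agent.H37.DEN
open scoped Matrix

theorem det_deg {k : Type} [Field k] {e : ℕ} (A : Matrix (Fin e) (Fin e) (Po 3 k)) (D : ℕ)
    (h : ∀ i j, (A i j).totalDegree ≤ D) : A.det.totalDegree ≤ e * D := by
  classical
  rw [Matrix.det_apply]
  refine totalDegree_finsetSum_le fun σ _ => ?_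
  refine le_trans ?_ (le_trans (totalDegree_finsetProd Finset.univ fun i => A (σ i) i) ?_)
  · rcases Int.units_eq_one_or (Equiv.Perm.sign σ) with h1 | h1
    · rw [h1, one_smul]
    · rw [h1, Units.neg_smul, one_smul, totalDegree_neg]
  · calc ∑ i, (A (σ i) i).totalDegree ≤ ∑ _i : Fin e, D := Finset.sum_le_sum fun i _ => h _ _
      _ = e * D := by rw [Finset.sum_const, Finset.card_univ, Fintype.card_fin, smul_eq_mul]

theorem adj_deg {k : Type} [Field k] {e : ℕ} (A : Matrix (Fin e) (Fin e) (Po 3 k)) (D : ℕ)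
    (h : ∀ i j, (A i j).totalDegree ≤ D) (i j : Fin e) :
    (A.adjugate i j).totalDegree ≤ e * D := by
  classical
  rw [Matrix.adjugate_apply]
  refine det_deg _ D fun i' j' => ?_
  rw [Matrix.updateRow_apply]
  split_ifs
  · by_cases h1 : j' = i
    · subst h1
      rw [Pi.single_eq_same, totalDegree_one]
      exact Nat.zero_le _
    · rw [Pi.single_eq_of_ne h1, totalDegree_zero]
      exact Nat.zero_le _
  · exact h _ _

section QQ

variable {k : Type} [Field k] {e : ℕ}

/-- after multiplication by `d ^ t` the matrix has polynomial entries of degree at most `c t` -/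
def QQ (d : Po 3 k) (c : ℕ) (M : Matrix (Fin e) (Fin e) (K3 k)) (t : ℕ) : Prop :=
  ∃ N : Matrix (Fin e) (Fin e) (Po 3 k), (∀ i j, (N i j).totalDegree ≤ c * t) ∧
    ∀ i j, ι d ^ t * M i j = ι (N i j)

theorem ι_mul (p q : Po 3 k) : ι (p * q) = ι p * ι q := map_mul _ _ _

theorem ι_add (p q : Po 3 k) : ι (p + q) = ι p + ι q := map_add _ _ _

theorem ι_pow (p : Po 3 k) (n : ℕ) : ι (p ^ n) = ι p ^ n := map_pow _ _ _

theorem ι_sum {α : Type} (s : Finset α) (f : α → Po 3 k) :
    ι (∑ i ∈ s, f i) = ∑ i ∈ s, ι (f i) := map_sum _ _ _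

theorem QQ.mul {d : Po 3 k} {c : ℕ} {M M' : Matrix (Fin e) (Fin e) (K3 k)} {t t' : ℕ}
    (h : QQ d c M t) (h' : QQ d c M' t') : QQ d c (M * M') (t + t') := by
  obtain ⟨N, h1, h2⟩ := h
  obtain ⟨N', h3, h4⟩ := h'
  refine ⟨N * N', fun i j => ?_, fun i j => ?_⟩
  · rw [Matrix.mul_apply]
    refine totalDegree_finsetSum_le fun l _ => (totalDegree_mul _ _).trans ?_
    have := h1 i l
    have := h3 l j
    rw [mul_add]
    omega
  · rw [Matrix.mul_apply, Matrix.mul_apply, ι_sum, Finset.mul_sum]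
    refine Finset.sum_congr rfl fun l _ => ?_
    rw [ι_mul, ← h2, ← h4]
    ring

theorem QQ.add {d : Po 3 k} {c : ℕ} {M M' : Matrix (Fin e) (Fin e) (K3 k)} {t : ℕ}
    (h : QQ d c M t) (h' : QQ d c M' t) : QQ d c (M + M') t := by
  obtain ⟨N, h1, h2⟩ := h
  obtain ⟨N', h3, h4⟩ := h'
  refine ⟨N + N', fun i j => ?_, fun i j => ?_⟩
  · rw [Matrix.add_apply]
    exact (totalDegree_add _ _).trans (max_le (h1 i j) (h3 i j))
  · rw [Matrix.add_apply, Matrix.add_apply, ι_add, ← h2, ← h4]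
    ring

theorem QQ.zero {d : Po 3 k} {c : ℕ} {t : ℕ} :
    QQ d c (0 : Matrix (Fin e) (Fin e) (K3 k)) t := by
  refine ⟨0, fun i j => ?_, fun i j => ?_⟩
  · rw [Matrix.zero_apply, totalDegree_zero]
    exact Nat.zero_le _
  · rw [Matrix.zero_apply, Matrix.zero_apply, mul_zero]
    exact (map_zero _).symm

theorem QQ.mono {d : Po 3 k} {c : ℕ} (hd : d.totalDegree ≤ c)
    {M : Matrix (Fin e) (Fin e) (K3 k)} {t t' : ℕ} (h : QQ d c M t) (ht : t ≤ t') :
    QQ d c M t' := by
  obtain ⟨N, h1, h2⟩ := h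
  refine ⟨fun i j => d ^ (t' - t) * N i j, fun i j => ?_, fun i j => ?_⟩
  · refine (totalDegree_mul _ _).trans ?_
    have h3 : (d ^ (t' - t)).totalDegree ≤ (t' - t) * c :=
      (totalDegree_pow _ _).trans (Nat.mul_le_mul_left _ hd)
    have h4 := h1 i j
    calc (d ^ (t' - t)).totalDegree + (N i j).totalDegree ≤ (t' - t) * c + c * t :=
          Nat.add_le_add h3 h4
      _ = c * ((t' - t) + t) := by ring
      _ = c * t' := by rw [Nat.sub_add_cancel ht]
  · rw [ι_mul, ← h2, ι_pow, ← mul_assoc, ← pow_add, Nat.sub_add_cancel ht]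

theorem QQ.one {d : Po 3 k} {c : ℕ} : QQ d c (1 : Matrix (Fin e) (Fin e) (K3 k)) 0 := by
  classical
  refine ⟨1, fun i j => ?_, fun i j => ?_⟩
  · rw [Matrix.one_apply]
    split_ifs
    · rw [totalDegree_one]
      exact Nat.zero_le _
    · rw [totalDegree_zero]
      exact Nat.zero_le _
  · rw [pow_zero, one_mul, Matrix.one_apply, Matrix.one_apply]
    split_ifs
    · exact (map_one _).symm
    · exact (map_zero _).symm

theorem QQ.smul {d : Po 3 k} {c : ℕ} {M : Matrix (Fin e) (Fin e) (K3 k)} {t : ℕ}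
    (h : QQ d c M t) (a : k) : QQ d c (ι (C a) • M) t := by
  obtain ⟨N, h1, h2⟩ := h
  refine ⟨fun i j => C a * N i j, fun i j => ?_, fun i j => ?_⟩
  · refine (totalDegree_mul _ _).trans ?_
    rw [totalDegree_C, zero_add]
    exact h1 i j
  · rw [Matrix.smul_apply, smul_eq_mul, ι_mul, ← h2]
    ring

theorem QQ.pow {d : Po 3 k} {c : ℕ} {M : Matrix (Fin e) (Fin e) (K3 k)}
    (h : QQ d c M 1) (n : ℕ) : QQ d c (M ^ n) n := by
  induction n with
  | zero =>
    rw [pow_zero]
    exact QQ.one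
  | succ n ih =>
    rw [pow_succ]
    exact ih.mul h

/-- the matrix of a polynomial -/
theorem QQ_poly {d : Po 3 k} {c : ℕ} (hd : d.totalDegree ≤ c)
    (M : K3 k →+* Matrix (Fin e) (Fin e) (K3 k))
    (hk : ∀ a : k, M (ι (C a)) = ι (C a) • (1 : Matrix (Fin e) (Fin e) (K3 k)))
    (hx : ∀ j : Fin 3, QQ d c (M (ι (X j))) 1) (B : Po 3 k) (n : ℕ) (hB : B.totalDegree ≤ n) :
    QQ d c (M (ι B)) n := by
  classical
  have h1 : B = ∑ α ∈ B.support, monomial α (B.coeff α) := B.as_sum
  rw [h1, ι_sum, map_sum]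
  have h2 : ∀ α ∈ B.support, QQ d c (M (ι (monomial α (B.coeff α)))) n := by
    intro α hα
    have h3 : ∑ j, α j ≤ n := by
      have h4 := le_totalDegree hα
      rw [Finsupp.sum_fintype _ _ (fun _ => rfl)] at h4
      exact h4.trans hB
    have h4 : monomial α (B.coeff α) = C (B.coeff α) * ∏ j, (X j : Po 3 k) ^ α j := by
      rw [monomial_eq, Finsupp.prod_fintype]
      intro i
      rw [pow_zero]
    have h5 : ι (monomial α (B.coeff α)) = ι (C (B.coeff α)) * ((ι (X 0)) ^ α 0 *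
        (ι (X 1)) ^ α 1 * (ι (X 2)) ^ α 2) := by
      rw [h4, Fin.prod_univ_three, ι_mul, ι_mul, ι_mul, ι_pow, ι_pow, ι_pow]
    rw [h5, map_mul, hk, map_mul, map_mul, map_pow, map_pow, map_pow, smul_mul_assoc, one_mul]
    refine QQ.smul (QQ.mono hd (((hx 0).pow (α 0)).mul ((hx 1).pow (α 1)) |>.mul
      ((hx 2).pow (α 2))) ?_) _
    rw [Fin.sum_univ_three] at h3
    exact h3
  have h3 : ∀ A : Finset (Fin 3 →₀ ℕ), A ⊆ B.support →
      QQ d c (∑ α ∈ A, M (ι (monomial α (B.coeff α)))) n := by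
    intro A
    induction A using Finset.induction_on with
    | empty =>
      intro _
      rw [Finset.sum_empty]
      exact QQ.zero
    | insert α A hα ih =>
      intro hA
      rw [Finset.sum_insert hα]
      exact (h2 α (hA (Finset.mem_insert_self _ _))).add
        (ih ((Finset.subset_insert _ _).trans hA))
  exact h3 _ (Finset.Subset.refl _)

end QQ

theorem pf_HTB : T_HTB := by
  classical
  intro k _ T τ e u hF hu
  have he : 0 < e := by
    have := hF.two
    omega
  choose co hco using hu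
  have hco1 : ∀ h, h = ∑ i, τ (co h i) * u ^ (i : ℕ) := fun h => (hco h).1
  have hco2 : ∀ h (a : Fin e → K3 k), h = ∑ i, τ (a i) * u ^ (i : ℕ) → a = co h :=
    fun h => (hco h).2
  have hadd : ∀ h h', co (h + h') = co h + co h' := by
    intro h h'
    refine (hco2 _ _ ?_).symm
    conv_lhs => rw [hco1 h, hco1 h']
    rw [← Finset.sum_add_distrib]
    refine Finset.sum_congr rfl fun i _ => ?_
    rw [Pi.add_apply, map_add]
    ring
  have hzero : co 0 = 0 := by
    refine (hco2 _ _ ?_).symm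
    simp
  have hbas : ∀ l : Fin e, co (u ^ (l : ℕ)) = Pi.single l 1 := by
    intro l
    refine (hco2 _ _ ?_).symm
    rw [Finset.sum_eq_single l]
    · rw [Pi.single_eq_same, map_one, one_mul]
    · intro i _ hi
      rw [Pi.single_eq_of_ne hi, map_zero, zero_mul]
    · intro h
      exact absurd (Finset.mem_univ l) h
  -- the matrices
  set Mt : K3 k → Matrix (Fin e) (Fin e) (K3 k) := fun b => Matrix.of fun i l =>
    co (b * u ^ (l : ℕ)) i with hMt
  have hmv : ∀ b h, co (b * h) = Mt b *ᵥ co h := by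
    intro b h
    refine (hco2 _ _ ?_).symm
    have h1 : ∀ l : Fin e, b * u ^ (l : ℕ) = ∑ i, τ (Mt b i l) * u ^ (i : ℕ) := fun l =>
      hco1 (b * u ^ (l : ℕ))
    calc b * h = b * ∑ l, τ (co h l) * u ^ (l : ℕ) := by rw [← hco1 h]
      _ = ∑ l, τ (co h l) * (b * u ^ (l : ℕ)) := by
          rw [Finset.mul_sum]
          refine Finset.sum_congr rfl fun l _ => ?_
          ring
      _ = ∑ l, ∑ i, τ (Mt b i l * co h l) * u ^ (i : ℕ) := by
          refine Finset.sum_congr rfl fun l _ => ?_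
          rw [h1 l, Finset.mul_sum]
          refine Finset.sum_congr rfl fun i _ => ?_
          rw [map_mul]
          ring
      _ = ∑ i, τ ((Mt b *ᵥ co h) i) * u ^ (i : ℕ) := by
          rw [Finset.sum_comm]
          refine Finset.sum_congr rfl fun i _ => ?_
          rw [Matrix.mulVec, dotProduct, map_sum, Finset.sum_mul]
  have hM1 : Mt 1 = 1 := by
    ext i l
    change co (1 * u ^ (l : ℕ)) i = _
    rw [one_mul, hbas, Matrix.one_apply, Pi.single_apply]
  have hMm : ∀ b b', Mt (b * b') = Mt b * Mt b' := by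
    intro b b'
    ext i l
    change co (b * b' * u ^ (l : ℕ)) i = _
    rw [mul_assoc, hmv, Matrix.mul_apply]
    rfl
  have hMa : ∀ b b', Mt (b + b') = Mt b + Mt b' := by
    intro b b'
    ext i l
    change co ((b + b') * u ^ (l : ℕ)) i = _
    rw [add_mul, hadd]
    rfl
  have hM0 : Mt 0 = 0 := by
    ext i l
    change co (0 * u ^ (l : ℕ)) i = _
    rw [zero_mul, hzero]
    rfl
  set M : K3 k →+* Matrix (Fin e) (Fin e) (K3 k) :=
    { toFun := Mt
      map_one' := hM1
      map_mul' := hMm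
      map_zero' := hM0
      map_add' := hMa } with hM
  have hMk : ∀ a : k, M (ι (C a)) = ι (C a) • (1 : Matrix (Fin e) (Fin e) (K3 k)) := by
    intro a
    ext i l
    change co (ι (C a) * u ^ (l : ℕ)) i = _
    have h1 : co (ι (C a) * u ^ (l : ℕ)) = ι (C a) • Pi.single l 1 := by
      refine (hco2 _ _ ?_).symm
      rw [Finset.sum_eq_single l]
      · rw [Pi.smul_apply, Pi.single_eq_same, smul_eq_mul, mul_one, hF.map, algHom_C,
          algebraMap_eq]
      · intro i _ hi
        rw [Pi.smul_apply, Pi.single_eq_of_ne hi, smul_zero, map_zero, zero_mul]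
      · intro h
        exact absurd (Finset.mem_univ l) h
    rw [h1, Matrix.smul_apply, Pi.smul_apply, Matrix.one_apply, Pi.single_apply]
  -- the common denominator
  obtain ⟨d, hd⟩ := IsLocalization.exist_integer_multiples_of_finite (nonZeroDivisors (Po 3 k))
    (fun t : Fin 3 × Fin e × Fin e => M (ι (X t.1)) t.2.1 t.2.2)
  choose N hN using hd
  have hd0 : (d : Po 3 k) ≠ 0 := nonZeroDivisors.ne_zero d.2
  set c : ℕ := (d : Po 3 k).totalDegree + ∑ t, (N t).totalDegree with hc
  have hdc : (d : Po 3 k).totalDegree ≤ c := Nat.le_add_right _ _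
  have hNc : ∀ t, (N t).totalDegree ≤ c := by
    intro t
    have h1 : (N t).totalDegree ≤ ∑ t, (N t).totalDegree :=
      Finset.single_le_sum (f := fun t => (N t).totalDegree) (fun _ _ => Nat.zero_le _)
        (Finset.mem_univ t)
    omega
  have hx : ∀ j : Fin 3, QQ (d : Po 3 k) c (M (ι (X j))) 1 := by
    intro j
    refine ⟨fun i l => N (j, i, l), fun i l => ?_, fun i l => ?_⟩
    · rw [mul_one]
      exact hNc _
    · rw [pow_one]
      have h1 := hN (j, i, l)
      rw [Algebra.smul_def] at h1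
      exact h1.symm
  have hιne : ∀ q : Po 3 k, q ≠ 0 → ι q ≠ 0 := by
    intro q hq
    unfold ι
    rw [Ne, FaithfulSMul.algebraMap_eq_zero_iff]
    exact hq
  refine ⟨(e + 1) * c, fun n h hh => ?_⟩
  obtain ⟨B, Cc, hCc, hBC, hBn, hCn⟩ := hh
  obtain ⟨NB, b1, b2⟩ := QQ_poly hdc M hMk hx B n hBn
  obtain ⟨NC, c1, c2⟩ := QQ_poly hdc M hMk hx Cc n hCn
  have hCc0 := hιne Cc hCc
  have hdι := hιne (d : Po 3 k) hd0
  -- the determinant is not zero
  have hmapB : NB.map ι = ι (d : Po 3 k) ^ n • M (ι B) := by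
    ext i j
    rw [Matrix.map_apply, Matrix.smul_apply, smul_eq_mul, b2]
  have hmapC : NC.map ι = ι (d : Po 3 k) ^ n • M (ι Cc) := by
    ext i j
    rw [Matrix.map_apply, Matrix.smul_apply, smul_eq_mul, c2]
  have hdetM : (M (ι Cc)).det ≠ 0 := by
    have h1 : M (ι Cc) * M (ι Cc)⁻¹ = 1 := by
      rw [← map_mul, mul_inv_cancel₀ hCc0, map_one]
    have h2 := congrArg Matrix.det h1
    rw [Matrix.det_mul, Matrix.det_one] at h2
    exact left_ne_zero_of_mul_eq_one h2
  have hdetC : ι NC.det ≠ 0 := by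
    have h1 : ι NC.det = (NC.map ι).det := by
      change (algebraMap (Po 3 k) (K3 k)) NC.det = _
      rw [RingHom.map_det]
      rfl
    rw [h1, hmapC, Matrix.det_smul]
    exact mul_ne_zero (pow_ne_zero _ (pow_ne_zero _ hdι)) hdetM
  have hNC0 : NC.det ≠ 0 := by
    intro h1
    apply hdetC
    rw [h1]
    exact map_zero _
  refine ⟨co h, hco1 h, fun i => ?_⟩
  have hkey : NC.map ι *ᵥ co h = fun i => ι (NB i ⟨0, he⟩) := by
    have h1 : M (ι Cc) *ᵥ co h = M (ι B) *ᵥ co 1 := by
      change Mt (ι Cc) *ᵥ co h = Mt (ι B) *ᵥ co 1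
      rw [← hmv, ← hmv, hBC, mul_one, mul_div_cancel₀ _ hCc0]
    have h2 : co 1 = Pi.single ⟨0, he⟩ 1 := by
      have h3 := hbas ⟨0, he⟩
      rw [pow_zero] at h3
      exact h3
    rw [hmapC, Matrix.smul_mulVec, h1, h2, ← Matrix.smul_mulVec, ← hmapB]
    funext i
    rw [Matrix.mulVec_single_one]
    rfl
  have hadj : ι NC.det • co h = fun i => ι (∑ l, NC.adjugate i l * NB l ⟨0, he⟩) := by
    have h1 : (NC.map ι).adjugate *ᵥ (NC.map ι *ᵥ co h) = ι NC.det • co h := by
      rw [Matrix.mulVec_mulVec, Matrix.adjugate_mul, Matrix.smul_mulVec, Matrix.one_mulVec]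
      congr 1
      change _ = (algebraMap (Po 3 k) (K3 k)) NC.det
      rw [RingHom.map_det]
      rfl
    rw [← h1, hkey]
    have h2 : (NC.map ι).adjugate = NC.adjugate.map ι := by
      have h3 := RingHom.map_adjugate (algebraMap (Po 3 k) (K3 k)) NC
      exact h3.symm
    rw [h2]
    funext i
    rw [ι_sum, Matrix.mulVec, dotProduct]
    refine Finset.sum_congr rfl fun l _ => ?_
    rw [ι_mul, Matrix.map_apply]
  refine ⟨∑ l, NC.adjugate i l * NB l ⟨0, he⟩, NC.det, hNC0, ?_, ?_, ?_⟩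
  · rw [eq_div_iff hdetC, mul_comm]
    exact congrFun hadj i
  · refine totalDegree_finsetSum_le fun l _ => (totalDegree_mul _ _).trans ?_
    have h1 := adj_deg NC (c * n) c1 i l
    have h2 := b1 l ⟨0, he⟩
    calc (NC.adjugate i l).totalDegree + (NB l ⟨0, he⟩).totalDegree ≤ e * (c * n) + c * n :=
          Nat.add_le_add h1 h2
      _ = (e + 1) * c * n := by ring
      _ ≤ (e + 1) * c * (n + 1) := Nat.mul_le_mul_left _ (Nat.le_succ n)
  · calc NC.det.totalDegree ≤ e * (c * n) := det_deg NC (c * n) c1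
      _ ≤ e * (c * n) + c * n := Nat.le_add_right _ _
      _ = (e + 1) * c * n := by ring
      _ ≤ (e + 1) * c * (n + 1) := Nat.mul_le_mul_left _ (Nat.le_succ n)

end Pool.Agent.H81.DEN
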