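import Pool.Agent.H37.DEN.TP
import Pool.Agent.H55.FFM.TP

/-! (PAR) the places at infinity of a totally invariant curve. -/

set_option autoImplicit false

namespace Pool.Agent.H81.DEN

open MvPolynomial Filter
open Pool.Agent.H18.HIT Pool.Agent.H8.TD Pool.Agent.H37.DEN
open Pool.Agent.H55.FFM (Vs PD VM deh trh)

theorem it_two {k : Type} [Field k] (T : Tup 3 k) (q : Po 3 k) :
    aeval (it T 2) q = aeval T (aeval T q) := by
  have h1 : it T 2 = fun i => aeval T (T i) := by
    unfold it
    rw [Function.iterate_succ_apply', Function.iterate_one]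
    have h2 : comp T (fun i => X i) = T := by
      funext i
      change aeval (fun i => X i) (T i) = T i
      rw [aeval_X_left_apply]
    rw [h2]
    rfl
  rw [h1]
  exact (comp_aeval_apply (f := T) (aeval T) q).symm

/-- the substitution `φ ↦ φ ^ r` -/
noncomputable def Ph (k : Type) [Field k] (r : ℤ) (hr : 0 < r) :
    LaurentSeries k →+* LaurentSeries k :=
  HahnSeries.embDomainRingHom (AddMonoidHom.mulLeft r)
    (fun a b h => mul_left_cancel₀ hr.ne' h)
    (fun a b => mul_le_mul_iff_right₀ hr)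

theorem Ph_coeff (k : Type) [Field k] (r : ℤ) (hr : 0 < r) (x : LaurentSeries k) (n : ℤ) :
    (Ph k r hr x).coeff (r * n) = x.coeff n :=
  HahnSeries.embDomain_coeff (f := ⟨⟨AddMonoidHom.mulLeft r,
    fun a b h => mul_left_cancel₀ hr.ne' h⟩, by
      intro a b
      exact mul_le_mul_iff_right₀ hr⟩) (x := x) (a := n)

theorem Ph_coeff' (k : Type) [Field k] (r : ℤ) (hr : 0 < r) (x : LaurentSeries k) (n : ℤ)
    (hn : ¬ r ∣ n) : (Ph k r hr x).coeff n = 0 :=
  HahnSeries.embDomain_of_notMem_range (f := ⟨⟨AddMonoidHom.mulLeft r,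
    fun a b h => mul_left_cancel₀ hr.ne' h⟩, by
      intro a b
      exact mul_le_mul_iff_right₀ hr⟩) (x := x) (by
        rintro ⟨m, hm⟩
        exact hn ⟨m, hm.symm⟩)

theorem Ph_range (k : Type) [Field k] (r : ℤ) (hr : 0 < r) (x : LaurentSeries k)
    (hx : ∀ n : ℤ, ¬ r ∣ n → x.coeff n = 0) : x ∈ (Ph k r hr).fieldRange := by
  have hb : BddBelow (Function.support fun n : ℤ => x.coeff (r * n)) := by
    refine ⟨min x.order 0, ?_⟩
    intro n hn
    rw [Function.mem_support] at hn
    have h1 : x.order ≤ r * n := HahnSeries.order_le_of_coeff_ne_zero hn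
    by_contra hcon
    push Not at hcon
    have h2 : n < x.order := lt_of_lt_of_le hcon (min_le_left _ _)
    have h3 : n < 0 := lt_of_lt_of_le hcon (min_le_right _ _)
    nlinarith
  refine ⟨HahnSeries.ofSuppBddBelow (fun n : ℤ => x.coeff (r * n)) hb, ?_⟩
  ext n
  by_cases hn : r ∣ n
  · obtain ⟨m, rfl⟩ := hn
    rw [Ph_coeff]
    rfl
  · rw [Ph_coeff' k r hr _ n hn, hx n hn]

theorem pf_PAR (hNRM : T_NRM) (hCRD : T_CRD) (hEMB : T_EMB) (hPLA : Pool.Agent.H55.FFM.T_PLA)
    (hCSZ : Pool.Agent.H55.FFM.T_CSZ) (hPRM : Pool.Agent.H55.FFM.T_PRM) : T_PAR := by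
  classical
  intro k _ _ _ G I F _ _ π τ' E hVM hcv hdeg hE
  have hinv : ∀ r ∈ π.range, τ' r ∈ π.range := by
    rintro _ ⟨q, rfl⟩
    exact ⟨aeval G q, (hVM.com q).symm⟩
  obtain ⟨R', hRR, hcv', hinv', hic⟩ := hNRM k F π.range τ' hcv hinv
  obtain ⟨S, _, v, hPD⟩ := hPLA k F R' hcv'
  have hcard := hCRD k F R' S v τ' E hcv' hPD hinv' hdeg hE hic
  obtain ⟨hne, -⟩ := hCSZ k F R' S v hcv' hPD
  obtain ⟨σ, hσ⟩ := hPRM k F R' S v τ' E hcv' hPD hinv' hdeg (by omega)
  have hσ2 : ∀ s, σ (σ s) = s := by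
    intro s
    by_contra h
    have h1 : σ s ≠ s := by
      intro h2
      rw [h2] at h
      exact h h2
    have h2 : σ (σ s) ≠ σ s := fun h3 => h1 (σ.injective h3)
    have h3 : 2 < Fintype.card S := Fintype.two_lt_card_iff.2 ⟨σ (σ s), σ s, s, h2, h, h1⟩
    omega
  have hVs : Vs k v := hPD.toVs
  have hE2 : 2 ≤ E ^ 2 := by nlinarith
  have hval : ∀ s a, a ≠ 0 → v s (τ'.comp τ' a) = ((E ^ 2 : ℕ) : ℤ) * v s a := by
    intro s a ha
    have h1 : τ' a ≠ 0 := (map_ne_zero τ').2 ha
    change v s (τ' (τ' a)) = _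
    rw [hσ s _ h1, hσ (σ s) a ha, hσ2]
    push_cast
    ring
  have hemb := fun s => hEMB k F S v hVs s (τ'.comp τ') (E ^ 2) hE2 (hval s)
  choose χ hχ1 hχ2 using hemb
  set ee : Fin (Fintype.card S) ≃ S := (Fintype.equivFin S).symm with hee
  have hker : ∀ (i : Fin (Fintype.card S)) (q : Po 3 k), χ (ee i) (π q) = 0 ↔ q ∈ I := by
    intro i q
    rw [map_eq_zero, hVM.ker]
  refine ⟨Fintype.card S, {
    ch := fun i => (χ (ee i)).comp π
    ker := ?_
    pow := ?_
    sum := ?_
    prim := ?_ }, Fintype.card_pos, hcard, fun i q => hker i q⟩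
  · intro i j q h
    exact (hker j q).2 ((hker i q).1 h)
  · intro i q
    have h1 := hχ2 (ee i) (π q)
    change IsPow (E ^ 2) (χ (ee i) (π q)) (χ (ee i) (π (aeval (it G 2) q)))
    rw [it_two, ← hVM.com, ← hVM.com]
    exact h1
  · intro q hq
    have h0 : π q ≠ 0 := by
      intro h
      apply hq ⟨0, Fintype.card_pos⟩
      change χ _ (π q) = 0
      rw [h, map_zero]
    have h1 : ∀ i, (((χ (ee i)).comp π) q).order = v (ee i) (π q) := fun i =>
      hχ1 (ee i) (π q) h0
    have h2 : ∑ i, (((χ (ee i)).comp π) q).order = ∑ s, v s (π q) := by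
      rw [Finset.sum_congr rfl fun i _ => h1 i]
      exact Equiv.sum_comp ee fun s => v s (π q)
    rw [h2]
    have h3 := (hPD.len ⟨π q, hRR ⟨q, rfl⟩⟩ (by
      intro h
      exact h0 (congrArg Subtype.val h))).2
    have h4 : (0 : ℤ) ≤ -∑ s, v s (π q) := by
      rw [← h3]
      exact Nat.cast_nonneg _
    linarith
  · intro i r hr
    by_contra hcon
    push Not at hcon
    have hr0 : (0 : ℤ) < r := by exact_mod_cast (by omega : 0 < r)
    set L : Subfield F := (Ph k (r : ℤ) hr0).fieldRange.comap (χ (ee i) : F →+* LaurentSeries k)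
      with hL
    have hc : ∀ c : k, algebraMap k F c ∈ L := by
      intro c
      rw [hL, Subfield.mem_comap]
      refine ⟨HahnSeries.C c, ?_⟩
      change HahnSeries.embDomainRingHom _ _ _ (HahnSeries.C c) = χ (ee i) (algebraMap k F c)
      rw [HahnSeries.embDomainRingHom_C, AlgHom.commutes, LaurentSeries.algebraMap_apply]
    have hX : ∀ j : Fin 3, π (X j) ∈ L := by
      intro j
      rw [hL, Subfield.mem_comap]
      exact Ph_range k r hr0 _ fun n hn => by
        by_contra h
        exact h (hcon j n hn)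
    have hall : ∀ q : Po 3 k, π q ∈ L := by
      intro q
      induction q using MvPolynomial.induction_on with
      | C c =>
        rw [MvPolynomial.algHom_C]
        exact hc c
      | add p q hp hq =>
        rw [map_add]
        exact L.add_mem hp hq
      | mul_X p j hp =>
        rw [map_mul]
        exact L.mul_mem hp (hX j)
    have htop : ∀ a : F, a ∈ L := by
      intro a
      have h1 : IntermediateField.adjoin k (Set.range π) ≤ L.toIntermediateField hc := by
        rw [IntermediateField.adjoin_le_iff]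
        rintro _ ⟨q, rfl⟩
        exact hall q
      rw [hVM.top] at h1
      exact h1 (IntermediateField.mem_top)
    obtain ⟨a, ha0, ha1⟩ := hVs.nrm (ee i)
    obtain ⟨y, hy⟩ := htop a
    have hy' : Ph k (r : ℤ) hr0 y = χ (ee i) a := hy
    have h1 := hχ1 (ee i) a ha0
    rw [ha1] at h1
    have h2 : (χ (ee i) a).coeff 1 ≠ 0 := by
      rw [← h1, Ne, HahnSeries.coeff_order_eq_zero]
      exact (map_ne_zero (χ (ee i))).2 ha0
    apply h2
    rw [← hy']
    refine Ph_coeff' k r hr0 y 1 ?_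
    intro h3
    have h4 := Int.le_of_dvd one_pos h3
    omega

end Pool.Agent.H81.DEN
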