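import Pool.Agent.H37.DEN.TP

/-! (SBH) substitution in Laurent series. -/

set_option autoImplicit false

namespace Pool.Agent.H81.DEN

open MvPolynomial Filter
open Pool.Agent.H18.HIT Pool.Agent.H8.TD Pool.Agent.H37.DEN
open Pool.Agent.H55.FFM (Vs PD VM deh trh)

theorem pf_SBH : T_SBH := by
  intro k _ ω hω
  have hω0 : ω ≠ 0 := by
    intro h
    rw [h, HahnSeries.order_zero] at hω
    exact zero_ne_one hω
  have hpos : 0 < ω.orderTop := by
    rw [← HahnSeries.order_eq_orderTop_of_ne_zero hω0, hω]
    exact_mod_cast one_pos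
  have hunit : ∀ u : PowerSeries k, PowerSeries.constantCoeff u ≠ 0 →
      (PowerSeries.heval ω u).order = 0 := by
    intro u hu
    have h1 : u * u⁻¹ = 1 := PowerSeries.mul_inv_cancel u hu
    have h2 : PowerSeries.heval ω u * PowerSeries.heval ω u⁻¹ = 1 := by
      rw [← PowerSeries.heval_mul, h1, map_one]
    have h3 : PowerSeries.heval ω u ≠ 0 := left_ne_zero_of_mul_eq_one h2
    have h4 : PowerSeries.heval ω u⁻¹ ≠ 0 := right_ne_zero_of_mul_eq_one h2
    have h5 : (PowerSeries.heval ω u).order + (PowerSeries.heval ω u⁻¹).order = 0 := by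
      rw [← HahnSeries.order_mul h3 h4, h2, HahnSeries.order_one]
    have h6 : (PowerSeries.heval ω u).order ≤ 0 := by
      refine HahnSeries.order_le_of_coeff_ne_zero ?_
      rw [PowerSeries.coeff_heval_zero]
      exact hu
    have h7 : (PowerSeries.heval ω u⁻¹).order ≤ 0 := by
      refine HahnSeries.order_le_of_coeff_ne_zero ?_
      rw [PowerSeries.coeff_heval_zero, PowerSeries.constantCoeff_inv]
      exact inv_ne_zero hu
    omega
  have hinj : Function.Injective (PowerSeries.heval ω : PowerSeries k →+* LaurentSeries k) := by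
    rw [injective_iff_map_eq_zero]
    intro y hy
    by_contra hy0
    have h1 : y = PowerSeries.X ^ y.order.toNat * PowerSeries.divXPowOrder y :=
      PowerSeries.X_pow_order_mul_divXPowOrder.symm
    have h2 : PowerSeries.constantCoeff (PowerSeries.divXPowOrder y) ≠ 0 := by
      rw [PowerSeries.constantCoeff_divXPowOrder]
      exact PowerSeries.coeff_order hy0
    have h3 : PowerSeries.heval ω (PowerSeries.divXPowOrder y) ≠ 0 := by
      intro h4
      have h5 := PowerSeries.coeff_heval_zero ω (PowerSeries.divXPowOrder y)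
      rw [h4, HahnSeries.coeff_zero] at h5
      exact h2 h5.symm
    have h6 : PowerSeries.heval ω y = ω ^ y.order.toNat *
        PowerSeries.heval ω (PowerSeries.divXPowOrder y) := by
      conv_lhs => rw [h1]
      rw [map_mul, map_pow, PowerSeries.heval_X ω hpos]
    have h7 : PowerSeries.heval ω y = 0 := hy
    rw [h6] at h7
    exact (mul_ne_zero (pow_ne_zero _ hω0) h3) h7
  set σ0 : LaurentSeries k →+* LaurentSeries k := IsFractionRing.lift hinj with hσ0
  have hσp : ∀ y : PowerSeries k, σ0 (algebraMap (PowerSeries k) (LaurentSeries k) y) =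
      PowerSeries.heval ω y := fun y => IsFractionRing.lift_algebraMap hinj y
  have hX : σ0 (HahnSeries.single 1 1) = ω := by
    have h1 : (HahnSeries.single 1 1 : LaurentSeries k) =
        algebraMap (PowerSeries k) (LaurentSeries k) PowerSeries.X := by
      rw [LaurentSeries.coe_algebraMap, HahnSeries.ofPowerSeries_X]
    rw [h1, hσp, PowerSeries.heval_X ω hpos]
  have hk : ∀ c : k, σ0 (algebraMap k (LaurentSeries k) c) = algebraMap k (LaurentSeries k) c := by
    intro c
    have h1 : algebraMap k (LaurentSeries k) c =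
        algebraMap (PowerSeries k) (LaurentSeries k) (PowerSeries.C c) := by
      rw [LaurentSeries.algebraMap_apply, LaurentSeries.coe_algebraMap,
        HahnSeries.ofPowerSeries_C]
    conv_lhs => rw [h1]
    rw [hσp, PowerSeries.heval_C, LaurentSeries.algebraMap_apply, ← HahnSeries.C_mul_eq_smul,
      mul_one]
  refine ⟨{ σ0 with commutes' := hk }, hX, fun x hx => ?_⟩
  change (σ0 x).order = x.order
  have h1 : x = (HahnSeries.single 1 1 : LaurentSeries k) ^ x.order *
      algebraMap (PowerSeries k) (LaurentSeries k) x.powerSeriesPart := by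
    have h2 := x.single_order_mul_powerSeriesPart
    rw [RatFunc.single_zpow] at h2
    exact h2.symm
  have h2 : PowerSeries.constantCoeff x.powerSeriesPart ≠ 0 := by
    rw [← PowerSeries.coeff_zero_eq_constantCoeff_apply, LaurentSeries.powerSeriesPart_coeff,
      Nat.cast_zero, add_zero]
    rw [Ne, HahnSeries.coeff_order_eq_zero]
    exact hx
  have h3 : PowerSeries.heval ω x.powerSeriesPart ≠ 0 := by
    intro h4
    have h5 := PowerSeries.coeff_heval_zero ω x.powerSeriesPart
    rw [h4, HahnSeries.coeff_zero] at h5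
    exact h2 h5.symm
  have hz : ∀ n : ℤ, (ω ^ n).order = n := by
    intro n
    rcases Int.eq_nat_or_neg n with ⟨m, rfl | rfl⟩
    · rw [zpow_natCast, HahnSeries.order_pow, hω]
      simp
    · rw [zpow_neg, zpow_natCast]
      have h4 : (ω ^ m)⁻¹ ≠ 0 := inv_ne_zero (pow_ne_zero _ hω0)
      have h5 := HahnSeries.order_mul (pow_ne_zero m hω0) h4
      rw [mul_inv_cancel₀ (pow_ne_zero m hω0), HahnSeries.order_one, HahnSeries.order_pow,
        hω] at h5
      simp at h5
      omega
  conv_lhs => rw [h1]
  rw [map_mul, map_zpow₀, hX, hσp, HahnSeries.order_mul (zpow_ne_zero _ hω0) h3, hz,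
    hunit _ h2, add_zero]

end Pool.Agent.H81.DEN
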