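import Pool.Agent.H37.DEN.Targets

/-! (SGN) the sign of the value at the dominating place is the sign of the degrees. -/

set_option autoImplicit false

namespace Pool.Agent.H81.DEN

open MvPolynomial Filter Topology
open Pool.Agent.H18.HIT Pool.Agent.H8.TD Pool.Agent.H37.DEN

theorem lim_ex {S : Type} (U : Ultrafilter S) (f : S → ℝ) (a b : ℝ)
    (h : ∀ᶠ s in (U : Filter S), a ≤ f s ∧ f s ≤ b) :
    ∃ x, Tendsto f (U : Filter S) (𝓝 x) := by
  have h1 : Set.Icc a b ∈ U.map f := h
  obtain ⟨x, -, hx⟩ := isCompact_Icc.ultrafilter_le_nhds' (U.map f) h1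
  exact ⟨x, hx⟩

theorem pl_max {k : Type} [Field k] (x : LaurentSeries k) (d : ℝ) (hd : 0 ≤ d) :
    ((pl x : ℕ) : ℝ) / d = max 0 (-((x.order : ℝ) / d)) := by
  have h1 : ((pl x : ℕ) : ℝ) = max (-(x.order : ℝ)) 0 := by
    have h2 : ((pl x : ℕ) : ℤ) = max (-x.order) 0 := Int.toNat_eq_max _
    have h3 : (((pl x : ℕ) : ℤ) : ℝ) = ((max (-x.order) 0 : ℤ) : ℝ) := by rw [h2]
    push_cast at h3
    exact h3
  rw [h1, ← max_div_div_right hd, zero_div, max_comm, neg_div]

theorem max_add (a b : ℝ) : max 0 (-(a + b)) ≤ max 0 (-a) + max 0 (-b) := by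
  refine max_le (by positivity) ?_
  have h1 := le_max_right 0 (-a)
  have h2 := le_max_right 0 (-b)
  linarith

theorem pf_SGN (hRDG : T_RDG) (hITR : T_ITR) (hVAL : Pool.Agent.H37.DEN.T_VAL) (hKON : T_KON)
    (hIDX : T_IDX) (hRK1 : T_RK1) (hPOL : T_POL) (hGNC : T_GNC) (hRHO : T_RHO)
    (hDOM : T_DOM) : T_SGN := by
  classical
  intro k _ _ _ T τ e m S U C hF hGr i₀ hi₀ h hh hV
  set L : Filter S := (U : Filter S) with hL
  have hfld := hF.fld
  have he1 : 1 ≤ e := by
    have := hfld.two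
    omega
  obtain ⟨I1, I2, I3, I4, I5⟩ := hITR k T τ hfld.map
  obtain ⟨R1, -, -, -, -⟩ := hRDG k
  obtain ⟨hde, hhe, hnu⟩ := R1 h
  have hP : nu h ≠ 0 := hnu hh
  obtain ⟨G1, G2⟩ := hGNC k T τ e m S U C hF
  obtain ⟨ρ, hρ1, hρ2, hρ3, hρ4⟩ := hRHO k T τ e m S U C hF hGr
  obtain ⟨-, -, hdom⟩ := hDOM k T τ e m S U C hF
  have hK := (hKON k T τ e m S U C hF).2
  have hm1 : 1 ≤ m := hF.one
  have hch : ∀ (s : S) (i : Fin m) (R : Po 3 k),
      -(((C s).ch i R).order : ℝ) ≤ R.totalDegree * (dl ((C s).ch i) : ℝ) := by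
    intro s i R
    have h1 := ((hPOL k T e m (C s) he1).2.1) i R
    have h2 : -((C s).ch i R).order ≤ (pl ((C s).ch i R) : ℤ) := Int.self_le_toNat _
    have h3 : -((C s).ch i R).order ≤ ((R.totalDegree * dl ((C s).ch i) : ℕ) : ℤ) :=
      h2.trans (by exact_mod_cast h1)
    exact_mod_cast h3
  have hdls : ∀ (s : S) (i : Fin m), (dl ((C s).ch i) : ℝ) ≤ (C s).dlt := by
    intro s i
    have h1 : dl ((C s).ch i) ≤ (C s).dlt := by
      unfold Cv.dlt
      exact Finset.single_le_sum (f := fun i => dl ((C s).ch i)) (fun _ _ => Nat.zero_le _)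
        (Finset.mem_univ i)
    exact_mod_cast h1
  have hdltR : ∀ s, (((C s).dlt : ℕ) : ℝ) = ∑ i, (dl ((C s).ch i) : ℝ) := by
    intro s
    unfold Cv.dlt
    push_cast
    rfl
  -- the limits of the orders
  have hlim : ∀ (i : Fin m) (R : Po 3 k), R ≠ 0 →
      ∃ x : ℝ, Tendsto (fun s => (((C s).ch i R).order : ℝ) / (C s).dlt) L (𝓝 x) := by
    intro i R hR
    refine lim_ex U _ (-(R.totalDegree : ℝ)) (R.totalDegree : ℝ) ?_
    filter_upwards [hF.gen R hR, hK] with s h1 h2
    have h3 : (0 : ℝ) < (C s).dlt := by exact_mod_cast h2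
    have hR0 : (0 : ℝ) ≤ R.totalDegree := Nat.cast_nonneg _
    rw [le_div_iff₀ h3, div_le_iff₀ h3]
    constructor
    · have h4 := hch s i R
      have h5 := mul_le_mul_of_nonneg_left (hdls s i) hR0
      linarith
    · have h4 := (C s).sum R h1
      have h5 : ∑ i', (((C s).ch i' R).order : ℝ) ≤ 0 := by exact_mod_cast h4
      rw [← Finset.add_sum_erase _ _ (Finset.mem_univ i)] at h5
      have h6 : -∑ i' ∈ Finset.univ.erase i, (((C s).ch i' R).order : ℝ) ≤
          R.totalDegree * (C s).dlt := by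
        rw [← Finset.sum_neg_distrib]
        calc ∑ i' ∈ Finset.univ.erase i, -(((C s).ch i' R).order : ℝ)
            ≤ ∑ i' ∈ Finset.univ.erase i, R.totalDegree * (dl ((C s).ch i') : ℝ) :=
              Finset.sum_le_sum fun i' _ => hch s i' R
          _ ≤ ∑ i', R.totalDegree * (dl ((C s).ch i') : ℝ) :=
              Finset.sum_le_sum_of_subset_of_nonneg (Finset.erase_subset _ _)
                fun i' _ _ => by positivity
          _ = R.totalDegree * (C s).dlt := by rw [← Finset.mul_sum, ← hdltR]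
      linarith
  choose! r hr using hlim
  have hdlim : ∀ i : Fin m, ∃ x : ℝ, Tendsto (fun s => (dl ((C s).ch i) : ℝ) / (C s).dlt) L
      (𝓝 x) := by
    intro i
    refine lim_ex U _ 0 1 ?_
    filter_upwards [hK] with s h2
    have h3 : (0 : ℝ) < (C s).dlt := by exact_mod_cast h2
    exact ⟨by positivity, (div_le_one h3).2 (hdls s i)⟩
  choose d hd using hdlim
  have hd0 : ∀ i, 0 ≤ d i := fun i => ge_of_tendsto (hd i) (Eventually.of_forall fun s => by
    positivity)
  -- F1
  have F1 : ∀ (i : Fin m) (R R' : Po 3 k), R ≠ 0 → R' ≠ 0 → r i (R * R') = r i R + r i R' := by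
    intro i R R' hR hR'
    refine tendsto_nhds_unique (hr i (R * R') (mul_ne_zero hR hR')) ?_
    refine ((hr i R hR).add (hr i R' hR')).congr' ?_
    filter_upwards [hF.gen R hR, hF.gen R' hR'] with s h1 h2
    rw [map_mul, HahnSeries.order_mul (h1 i) (h2 i)]
    push_cast
    ring
  -- F2
  have hplim : ∀ (i : Fin m) (R : Po 3 k), R ≠ 0 →
      Tendsto (fun s => (pl ((C s).ch i R) : ℝ) / (C s).dlt) L (𝓝 (max 0 (-(r i R)))) := by
    intro i R hR
    have h1 : (fun s => (pl ((C s).ch i R) : ℝ) / (C s).dlt) = fun s =>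
        max 0 (-((((C s).ch i R).order : ℝ) / (C s).dlt)) := by
      funext s
      exact pl_max _ _ (Nat.cast_nonneg _)
    rw [h1]
    exact tendsto_const_nhds.max (hr i R hR).neg
  have F2 : ∀ R : Po 3 k, R ≠ 0 → ρ R = ∑ i, max 0 (-(r i R)) := by
    intro R hR
    refine tendsto_nhds_unique (hρ1 R hR) ?_
    refine (tendsto_finsetSum Finset.univ fun i _ => hplim i R hR).congr fun s => ?_
    unfold Cv.pol
    push_cast
    rw [Finset.sum_div]
  -- F4
  have F4 : 0 < d i₀ := by
    have hmR : (0 : ℝ) < m := by exact_mod_cast hm1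
    have h1 : 1 / (m : ℝ) ≤ d i₀ := by
      refine ge_of_tendsto (hd i₀) ?_
      filter_upwards [hK, hi₀] with s h2 h3
      have h4 : (0 : ℝ) < (C s).dlt := by exact_mod_cast h2
      rw [div_le_div_iff₀ hmR h4, one_mul, mul_comm]
      exact_mod_cast h3
    exact lt_of_lt_of_le (by positivity) h1
  -- F5
  have F5 : ∀ i : Fin m, ∃ x' : Po 3 k, x' ≠ 0 ∧ max 0 (-(r i x')) = d i := by
    intro i
    obtain ⟨j, hj⟩ := hdom i
    refine ⟨X j, X_ne_zero j, ?_⟩
    refine tendsto_nhds_unique (hplim i (X j) (X_ne_zero j)) ?_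
    refine (hd i).congr' ?_
    filter_upwards [hj] with s h1
    rw [h1]
  -- F6
  have F6 : ∀ (i : Fin m) (R : Po 3 k), R ≠ 0 → -(r i R) ≤ R.totalDegree * d i := by
    intro i R hR
    refine le_of_tendsto_of_tendsto (hr i R hR).neg ((hd i).const_mul (R.totalDegree : ℝ))
      (Eventually.of_forall fun s => ?_)
    change -((((C s).ch i R).order : ℝ) / (C s).dlt) ≤
      (R.totalDegree : ℝ) * ((dl ((C s).ch i) : ℝ) / (C s).dlt)
    rw [← neg_div, ← mul_div_assoc]
    exact div_le_div_of_nonneg_right (hch s i R) (Nat.cast_nonneg _)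
  -- F7
  have F7 : ∀ (i : Fin m) (R : Po 3 k), R ≠ 0 → 0 < d i → r i R ≤ 0 := by
    intro i R hR hdi
    by_contra hcon
    push Not at hcon
    obtain ⟨x', hx', hx2⟩ := F5 i
    have h1 := hρ3 R x' hR hx'
    rw [F2 _ (mul_ne_zero hR hx'), F2 R hR, F2 x' hx', ← Finset.sum_add_distrib] at h1
    have h2 : ∑ i', max 0 (-(r i' (R * x'))) < ∑ i', (max 0 (-(r i' R)) + max 0 (-(r i' x'))) := by
      refine Finset.sum_lt_sum (fun i' _ => ?_) ⟨i, Finset.mem_univ i, ?_⟩
      · rw [F1 i' R x' hR hx']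
        exact max_add _ _
      · rw [F1 i R x' hR hx', hx2]
        have h3 : -(r i x') = d i := by
          rcases le_total 0 (-(r i x')) with h | h
          · rwa [max_eq_right h] at hx2
          · rw [max_eq_left h] at hx2
            linarith
        have h4 : max 0 (-(r i R)) = 0 := max_eq_left (by linarith)
        rw [h4, zero_add]
        refine max_lt hdi ?_
        linarith
    linarith
  -- F8
  have F8 : ∀ (i : Fin m) (R : Po 3 k), R ≠ 0 →
      max 0 (-(r i R)) = if 0 < d i then -(r i R) else 0 := by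
    intro i R hR
    split_ifs with h1
    · exact max_eq_right (by linarith [F7 i R hR h1])
    · have h2 : d i = 0 := le_antisymm (not_lt.1 h1) (hd0 i)
      have h3 := F6 i R hR
      rw [h2, mul_zero] at h3
      exact max_eq_left h3
  -- step 1
  have hstep1 : r i₀ (de h) < r i₀ (nu h) := by
    obtain ⟨j, hj⟩ := hdom i₀
    have hX : (X j : Po 3 k) ≠ 0 := X_ne_zero j
    obtain ⟨hVt, hV2, -⟩ := hVAL k T τ e m S U C hF i₀
    obtain ⟨u, hu⟩ := hIDX k T τ e m S U C hF i₀
    have hιX : ι (X j : Po 3 k) ≠ 0 := by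
      unfold ι
      rw [Ne, FaithfulSMul.algebraMap_eq_zero_iff]
      exact hX
    obtain ⟨a, b, hab, hrel⟩ := hRK1 k T τ e (Germ (U : Filter S) ℤ)
      (Vg U fun s => (C s).ch i₀) u hfld hGr hVt hu h (ι (X j)) hh hιX
    have ev1 : ∀ᶠ s in L, vs ((C s).ch i₀) h =
        ((C s).ch i₀ (nu h)).order - ((C s).ch i₀ (de h)).order := Eventually.of_forall fun _ => rfl
    have ev2 : ∀ᶠ s in L, vs ((C s).ch i₀) (ι (X j)) = ((C s).ch i₀ (X j)).order := by
      filter_upwards [hV2 (X j) 1 hX one_ne_zero] with s h1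
      have h2 : ι (1 : Po 3 k) = 1 := by
        unfold ι
        exact map_one _
      rw [h2, div_one] at h1
      rw [h1, map_one, HahnSeries.order_one, sub_zero]
    have ev3 : ∀ᶠ s in L, a * vs ((C s).ch i₀) h + b * vs ((C s).ch i₀) (ι (X j)) = 0 := by
      have h1 : ((fun s => a * vs ((C s).ch i₀) h + b * vs ((C s).ch i₀) (ι (X j)) : S → ℤ) :
          Germ (U : Filter S) ℤ) = ((fun _ => 0 : S → ℤ) : Germ (U : Filter S) ℤ) := hrel
      exact Germ.coe_eq.1 h1
    have ev4 : ∀ᶠ s in L, 0 < vs ((C s).ch i₀) h := Germ.coe_pos.1 hV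
    -- the relation at almost all places
    have hmR : (0 : ℝ) < m := by exact_mod_cast hm1
    have ev5 : ∀ᶠ s in L, (a : ℤ) * (((C s).ch i₀ (nu h)).order - ((C s).ch i₀ (de h)).order) =
        b * (dl ((C s).ch i₀) : ℤ) ∧
        0 < ((C s).ch i₀ (nu h)).order - ((C s).ch i₀ (de h)).order ∧
        1 ≤ dl ((C s).ch i₀) := by
      filter_upwards [ev2, ev3, ev4, hj, hK, hi₀] with s h2 h3 h4 h5 h6 h7
      have h8 : 1 ≤ dl ((C s).ch i₀) := by
        by_contra hcon
        have h9 : dl ((C s).ch i₀) = 0 := by omega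
        rw [h9, mul_zero] at h7
        omega
      have h9 : ((C s).ch i₀ (X j)).order = -(dl ((C s).ch i₀) : ℤ) := by
        rw [← h5]
        unfold pl
        rw [← h5] at h8
        unfold pl at h8
        omega
      have h10 : vs ((C s).ch i₀) h =
        ((C s).ch i₀ (nu h)).order - ((C s).ch i₀ (de h)).order := rfl
      rw [h2, h9, h10] at h3
      rw [h10] at h4
      refine ⟨by linarith, h4, h8⟩
    have hb : b ≠ 0 ∨ a ≠ 0 := by
      by_contra hcon
      push Not at hcon
      exact hab ⟨hcon.2, hcon.1⟩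
    have hge : 0 ≤ r i₀ (nu h) - r i₀ (de h) := by
      refine ge_of_tendsto ((hr i₀ _ hP).sub (hr i₀ _ hde)) ?_
      filter_upwards [ev5] with s h1
      rw [← sub_div]
      refine div_nonneg ?_ (Nat.cast_nonneg _)
      exact_mod_cast h1.2.1.le
    have hreq : (a : ℝ) * (r i₀ (nu h) - r i₀ (de h)) = b * d i₀ := by
      refine tendsto_nhds_unique (((hr i₀ _ hP).sub (hr i₀ _ hde)).const_mul (a : ℝ)) ?_
      refine ((hd i₀).const_mul (b : ℝ)).congr' ?_
      filter_upwards [ev5] with s h1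
      have h2 : (a : ℝ) * ((((C s).ch i₀ (nu h)).order : ℝ) - ((C s).ch i₀ (de h)).order) =
          b * (dl ((C s).ch i₀) : ℝ) := by exact_mod_cast h1.1
      rw [← sub_div, ← mul_div_assoc, ← mul_div_assoc, h2]
    rcases hge.lt_or_eq with h1 | h1
    · linarith
    · exfalso
      rw [← h1, mul_zero] at hreq
      have hb0 : b = 0 := by
        have := (mul_eq_zero.1 hreq.symm).resolve_right F4.ne'
        exact_mod_cast this
      obtain ⟨s, h2, h3, -⟩ := ev5.exists
      rw [hb0, zero_mul] at h2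
      have ha0 : a = 0 := (mul_eq_zero.1 h2).resolve_right h3.ne'
      exact hab ⟨ha0, hb0⟩
  -- step 4
  have hlt : ρ (nu h) < ρ (de h) := by
    by_contra hcon
    push Not at hcon
    obtain ⟨E₀, hE₀⟩ := G2 (nu h) (de h) hP hde
    -- the constant
    obtain ⟨c, hc⟩ : ∃ c : k, c ∉ E₀ ∪ {0} ∧ nu h + MvPolynomial.C c * de h ≠ 0 := by
      have hfin : {c : k | c ∈ E₀ ∪ {0} ∨ nu h + MvPolynomial.C c * de h = 0}.Finite := by
        refine ((E₀ ∪ {0} : Finset k).finite_toSet.union
          (Set.Subsingleton.finite (s := {c : k | nu h + MvPolynomial.C c * de h = 0}) ?_)).subset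
            ?_
        · intro c hc c' hc'
          change nu h + MvPolynomial.C c * de h = 0 at hc
          change nu h + MvPolynomial.C c' * de h = 0 at hc'
          have h1 : (MvPolynomial.C c - MvPolynomial.C c') * de h = 0 := by
            linear_combination hc - hc'
          have h2 := (mul_eq_zero.1 h1).resolve_right hde
          exact MvPolynomial.C_injective _ _ (sub_eq_zero.1 h2)
        · intro c hc
          rcases hc with h1 | h1
          · left
            exact h1
          · right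
            exact h1
      obtain ⟨c, hc⟩ := hfin.infinite_compl.nonempty
      rw [Set.mem_compl_iff, Set.mem_ofPred_eq, not_or] at hc
      exact ⟨c, hc⟩
    obtain ⟨hc1, hc2⟩ := hc
    rw [Finset.mem_union, Finset.mem_singleton, not_or] at hc1
    obtain ⟨hc3, hc4⟩ := hc1
    have hC : MvPolynomial.C (σ := Fin 3) c ≠ 0 := by
      rw [Ne, MvPolynomial.C_eq_zero]
      exact hc4
    have hrmin : ∀ i, r i (nu h + MvPolynomial.C c * de h) = min (r i (nu h)) (r i (de h)) := by
      intro i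
      refine tendsto_nhds_unique (hr i _ hc2) ?_
      refine ((hr i _ hP).min (hr i _ hde)).congr' ?_
      filter_upwards [hE₀ c hc3] with s h1
      rw [h1 i, min_div_div_right (Nat.cast_nonneg _)]
      push_cast
      rfl
    have hρc : ρ (MvPolynomial.C c * de h) = ρ (de h) := by
      have h1 : ρ (MvPolynomial.C c * de h) = ρ (MvPolynomial.C c) + ρ (de h) := hρ3 _ _ hC hde
      have h2 : ρ (MvPolynomial.C c) = 0 := by
        rw [F2 _ hC]
        refine Finset.sum_eq_zero fun i _ => ?_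
        have h3 : r i (MvPolynomial.C c) = 0 := by
          refine tendsto_nhds_unique (hr i _ hC) ?_
          refine tendsto_const_nhds.congr fun s => ?_
          have h4 : ((C s).ch i (MvPolynomial.C c)).order = 0 := by
            rw [MvPolynomial.algHom_C, LaurentSeries.algebraMap_apply, HahnSeries.order_C]
          rw [h4]
          simp
        rw [h3]
        simp
      rw [h1, h2, zero_add]
    have h1 := hρ4 (nu h) (MvPolynomial.C c * de h) hP (mul_ne_zero hC hde) hc2
    rw [hρc, max_eq_left hcon, F2 _ hc2, F2 _ hP] at h1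
    have h2 : ∑ i, max 0 (-(r i (nu h))) <
        ∑ i, max 0 (-(r i (nu h + MvPolynomial.C c * de h))) := by
      refine Finset.sum_lt_sum (fun i _ => ?_) ⟨i₀, Finset.mem_univ i₀, ?_⟩
      · rw [hrmin i]
        exact max_le_max le_rfl (neg_le_neg (min_le_left _ _))
      · rw [F8 i₀ _ hP, F8 i₀ _ hc2, if_pos F4, if_pos F4, hrmin i₀, min_eq_right hstep1.le]
        linarith
    linarith
  obtain ⟨N, hN⟩ := hρ2 _ _ hP hde hlt
  refine ⟨N, fun n hn => ?_⟩
  have h1 := I5 n (nu h) (de h) hP hde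
  rw [← hhe] at h1
  rw [h1]
  have h2 := hN n hn
  omega

end Pool.Agent.H81.DEN
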